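import Pool.Agent.MP_66a317_pr.All.Cap2
import Pool.Agent.Mg.F66a317.Gdccaae

open MeasureTheory Set Filter
open scoped ENNReal

namespace Pool.Agent.MP_66a317_pr.Drop

open Fast All

/-- a ray up to time `a`, then parallel to the real axis -/
noncomputable def hook (a : ℝ) (d : ℂ) (t : ℝ) : ℂ :=
  -1 + ((min t a : ℝ) : ℂ) * d + ((max t a - a : ℝ) : ℂ)

theorem hook_lip {a : ℝ} {d : ℂ} (ha : 0 ≤ a) (hd : ‖d‖ = 1) :
    hook a d 0 = -1 ∧ ∀ s t, dist (hook a d s) (hook a d t) ≤ |s - t| := by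
  refine ⟨by simp [hook, ha], fun s t => ?_⟩
  rw [Complex.dist_eq, show hook a d s - hook a d t = ((min s a - min t a : ℝ) : ℂ) * d +
    ((max s a - max t a : ℝ) : ℂ) by unfold hook; push_cast; ring, ← abs_min_add_abs_max s t a]
  refine (norm_add_le _ _).trans_eq ?_
  rw [norm_mul, hd, mul_one, Complex.norm_real, Complex.norm_real, Real.norm_eq_abs,
    Real.norm_eq_abs]

/-- the paths that run along the line of height `W` at depth `z` -/
noncomputable def side (W z t : ℝ) : ℂ :=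
  hook ((z ^ 2 + W ^ 2) / (2 * |z|)) ((W + z * Complex.I) ^ 2 / ((z ^ 2 + W ^ 2 : ℝ) : ℂ)) t

theorem side_norm {W : ℝ} (hW : 0 < W) (z : ℝ) :
    ‖((W : ℂ) + z * Complex.I) ^ 2 / ((z ^ 2 + W ^ 2 : ℝ) : ℂ)‖ = 1 := by
  rw [norm_div, norm_pow, Complex.sq_norm, Complex.normSq_add_mul_I, Complex.norm_real,
    Real.norm_of_nonneg (by positivity), add_comm, div_self (by positivity)]

theorem lead (z : ℂ) : ‖z + 1‖ - Real.cos (Complex.arg (z + 1)) ≤ ‖z‖ := by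
  have h2 := re_mul_cis_le z (-Complex.arg (z + 1))
  have h3 : z * cis (-Complex.arg (z + 1)) = ‖z + 1‖ - cis (-Complex.arg (z + 1)) := by
    linear_combination cis (-Complex.arg (z + 1)) * polar z +
      (‖z + 1‖ : ℂ) * cis_mul_neg (Complex.arg (z + 1))
  rwa [h3, Complex.sub_re, Complex.ofReal_re, cis_re, Real.cos_neg] at h2

theorem g_bar {B δ ε te : ℝ} {g : ℝ → ℂ} (hε : 0 < ε) (hB : 0 ≤ B)
    (hcos : Real.cos B ≤ 1 - δ) (hc : Continuous g) (h0 : g 0 = 0)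
    (hn : ∀ t, 0 ≤ t → ‖g t‖ ≤ (1 - ε) * t) (hge : ∀ t, 0 ≤ t → t ≤ te → t ≤ ‖g t + 1‖)
    {t : ℝ} (ht0 : 0 ≤ t) (ht : t ≤ te) (hθ : B ≤ Complex.arg (g t + 1)) :
    ∃ s : ℝ, 0 ≤ s ∧ dist (-1 + (s : ℂ) * cis B) (g s) ≤ 1 - δ := by
  obtain ⟨s, hs, hz⟩ := intermediate_value_Icc ht0
    (arg_cont hε hc hn le_rfl fun s h1 h2 => hge s h1 (h2.trans ht))
    (show B ∈ Icc _ _ from ⟨by simpa [h0] using hB, hθ⟩)
  have hz' : Complex.arg (g s + 1) = B := hz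
  have h1 := hge s hs.1 (hs.2.trans ht)
  have h2 := lead (g s)
  have h5 := hn s hs.1
  have h4 := polar (g s)
  rw [hz'] at h4 h2
  refine ⟨s, hs.1, (congrArg (dist _) h4).le.trans ?_⟩
  rw [dist_add_left, dist_mul_cis, Complex.dist_eq, ← Complex.ofReal_sub, Complex.norm_real,
    Real.norm_eq_abs, abs_sub_comm, abs_of_nonneg (by linarith)]
  nlinarith [mul_nonneg hε.le hs.1]

theorem g_sweep {e κ t0 s0 s1 δ ε z : ℝ} {g : ℝ → ℂ} (hε : 0 < ε) (he : 0 ≤ e) (ht0 : 0 < t0)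
    (h0 : t0 ≤ s0) (h1 : s0 ≤ s1) (hc : Continuous g) (hn : ∀ t, 0 ≤ t → ‖g t‖ ≤ (1 - ε) * t)
    (hge : ∀ t, 0 ≤ t → t ≤ s1 → t ≤ ‖g t + 1‖)
    (hl : ∀ t, s0 ≤ t → t ≤ s1 → ‖g t + 1‖ - (1 - e) * t ≤ 1 - δ)
    (hz : z ∈ Ico (Complex.arg (g s1 + 1) - κ * clock t0 s1)
      (Complex.arg (g s0 + 1) - κ * clock t0 s0)) :
    ∃ t, 0 ≤ t ∧ dist (spath (fun _ => e) (fun _ => 0) t0 z κ 0 t) (g t) ≤ 1 - δ := by
  have hck := continuous_clock ht0
  have hξ : ContinuousOn (fun t => Complex.arg (g t + 1) - κ * clock t0 t) (Icc s0 s1) :=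
    (arg_cont hε hc hn (ht0.le.trans h0) hge).sub (by fun_prop)
  obtain ⟨t, ht, hz⟩ := intermediate_value_Icc' h1 hξ (show z ∈ Icc _ _ from ⟨hz.1, hz.2.le⟩)
  have t1 : t0 ≤ t := h0.trans ht.1
  have t0' : 0 ≤ t := ht0.le.trans t1
  have hz' : Complex.arg (g t + 1) = z + κ * clock t0 t + 0 := by
    simp only at hz
    linarith
  have h4 := polar (g t)
  rw [hz'] at h4
  refine ⟨t, t0', ?_⟩
  rw [spath]
  refine (congrArg (dist _) h4).le.trans ?_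
  have h2 := hge t t0' ht.2
  have h3 := hl t ht.1 ht.2
  have h5 : 0 ≤ e * t := mul_nonneg he t0'
  rw [dist_add_left, dist_mul_cis, Complex.dist_eq, ← Complex.ofReal_sub, Complex.norm_real,
    Real.norm_eq_abs, max_eq_left t1, min_eq_right (by linarith), abs_sub_comm,
    abs_of_nonneg (by linarith)]
  linarith

theorem g_side {W t z r : ℝ} {y : ℂ} (hW : 0 < W) (hi : y.im = W) (hn : ‖y + 1‖ ≤ t)
    (hX : 1 ≤ (y + 1).re) (hr : r ≤ 1) (hz : z ∈ Ico (t - (y + 1).re) (t - (y + 1).re + r)) :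
    0 < t - (y + 1).re ∧ dist (side W z t) y ≤ r := by
  have h1 : ‖y + 1‖ ^ 2 = (y + 1).re ^ 2 + W ^ 2 := by
    rw [Complex.sq_norm, Complex.normSq_apply, Complex.add_im, hi, Complex.one_im]
    ring
  have h2 : ‖y + 1‖ ^ 2 ≤ t ^ 2 := pow_le_pow_left₀ (norm_nonneg _) hn 2
  have ht : 0 ≤ t := (norm_nonneg _).trans hn
  have h3 : (y + 1).re < t := lt_of_pow_lt_pow_left₀ 2 ht (by linarith [pow_pos hW 2])
  have z0 : 0 < z := by linarith [hz.1]
  have h4 : (t - z) ^ 2 ≤ (y + 1).re ^ 2 := sq_le_sq' (by linarith [hz.2]) (by linarith [hz.1])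
  have h5 : (z ^ 2 + W ^ 2) / (2 * z) ≤ t := by
    rw [div_le_iff₀ (by positivity)]
    linarith
  have e : side W z t = -1 + ((t - z : ℝ) : ℂ) + W * Complex.I := by
    have a1 : (z : ℂ) ≠ 0 := by exact_mod_cast z0.ne'
    have a2 : ((z ^ 2 + W ^ 2 : ℝ) : ℂ) ≠ 0 := by
      exact_mod_cast (show z ^ 2 + W ^ 2 ≠ 0 by positivity)
    rw [side, hook, abs_of_pos z0, min_eq_right h5, max_eq_left h5, Complex.ofReal_div,
      div_mul_div_cancel₀' a2]
    push_cast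
    field_simp
    linear_combination (z : ℂ) ^ 2 * Complex.I_sq
  refine ⟨by linarith, ?_⟩
  have e2 : -1 + ((t - z : ℝ) : ℂ) + W * Complex.I - y = ((t - z - (y + 1).re : ℝ) : ℂ) := by
    apply Complex.ext <;> simp [hi]
    ring
  rw [e, Complex.dist_eq, e2, Complex.norm_real, Real.norm_eq_abs, abs_le]
  constructor <;> linarith [hz.1, hz.2]

theorem g_lat {tv te l lam T0 D W1 x x' : ℝ} (hv : 0 < tv) (h1 : tv ≤ te) (h2 : te ≤ lam * tv)
    (hT : tv ≤ T0) (hl0 : 0 ≤ l) (hl : l ≤ 1) (hx : |x - x'| ≤ 2) (hD0 : 0 ≤ D)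
    (hD : 8 * ((lam - 1) * T0) ≤ D ^ 2) (hW : tv * |x| ≤ W1)
    (hd : dist (((tv + l : ℝ) : ℂ) * cis x) ((te : ℂ) * cis x') ≤ te - tv) :
    te * |x'| ≤ lam * (W1 + D) := by
  have a1 := pow_le_pow_left₀ dist_nonneg hd 2
  rw [dist_polar_sq] at a1
  have a2 := cos_Near hx
  have a3 : 0 ≤ lam - 1 := by
    by_contra h
    nlinarith
  have a4 : tv * tv * ((x - x') ^ 2 / 8) ≤ (tv + l) * te * (1 - Real.cos (x - x')) :=
    mul_le_mul (mul_le_mul (by linarith) h1 hv.le (by linarith)) a2 (by positivity)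
      (mul_nonneg (by linarith) (by linarith))
  have a5 : (lam - 1) * tv ≤ (lam - 1) * T0 := by gcongr
  have a6 : (te - tv) * l ≤ (te - tv) * 1 := by gcongr
  have a7 : tv * |x - x'| ≤ D := by
    refine le_of_sq_le_sq ?_ hD0
    rw [mul_pow, sq_abs]
    nlinarith [sq_nonneg l]
  have a8 : |x'| ≤ |x| + |x - x'| := by
    have := abs_sub_abs_le_abs_sub x' x
    rw [abs_sub_comm] at this
    linarith
  calc te * |x'| ≤ lam * tv * (|x| + |x - x'|) := by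
        refine mul_le_mul h2 a8 (abs_nonneg _) ?_
        linarith
    _ = lam * (tv * |x| + tv * |x - x'|) := by ring
    _ ≤ _ := by
        gcongr
        linarith

theorem g_wedge {ε t1 te W θ Z : ℝ} {g : ℝ → ℂ} (hε : 0 < ε) (hc : Continuous g)
    (hn : ∀ t, 0 ≤ t → ‖g t‖ ≤ (1 - ε) * t) (hL : ∀ s t, dist (g s) (g t) ≤ (1 - ε) * |s - t|)
    (ht1 : 0 < t1) (hW : W ≤ t1) (hθ : ∀ x, |x| ≤ Real.pi / 2 → |Real.sin x| ≤ W / t1 → |x| ≤ θ)
    (hZ : t1 - Z ≤ √(t1 ^ 2 - W ^ 2)) (hZ1 : 1 ≤ t1 - Z) (h1 : t1 ≤ te) (hρ : ‖g te + 1‖ = te)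
    (hre : 0 ≤ (g te + 1).re) (him : |(g te).im| ≤ W) :
    (∃ t x, 0 ≤ t ∧ |x| ≤ θ ∧ g t = hook t1 (cis x) t) ∨ ∃ t, 0 ≤ t ∧ |(g t).im| = W ∧
      ‖g t + 1‖ ≤ t ∧ 1 ≤ (g t + 1).re ∧ t - (g t + 1).re ≤ Z := by
  have sq : ∀ y : ℝ, |y| ≤ W → √(t1 ^ 2 - y ^ 2) ^ 2 = t1 ^ 2 - y ^ 2 := fun y hy =>
    Real.sq_sqrt (sub_nonneg.2 (sq_le_sq' (by linarith [(abs_le.1 hy).1])
      (by linarith [(abs_le.1 hy).2])))
  have nsq : ∀ z : ℂ, ‖z‖ ^ 2 = z.re ^ 2 + z.im ^ 2 := fun z => by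
    rw [Complex.sq_norm, Complex.normSq_apply]
    ring
  have hT : te ≤ te + (1 + t1) / ε := le_add_of_nonneg_right (by positivity)
  obtain ⟨t, ht, hz⟩ := intermediate_value_Icc' (f := fun t => min ((g t + 1).re - (t - t1) -
      √(t1 ^ 2 - (g t).im ^ 2)) (W - |(g t).im|)) hT (by fun_prop)
    (show (0 : ℝ) ∈ Icc _ _ from ⟨min_le_of_left_le (by
      have a1 := hn (te + (1 + t1) / ε) (by linarith)
      have a2 := Complex.re_le_norm (g (te + (1 + t1) / ε))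
      have a3 : ε * ((1 + t1) / ε) = 1 + t1 := by field_simp
      have a4 := Real.sqrt_nonneg (t1 ^ 2 - (g (te + (1 + t1) / ε)).im ^ 2)
      have a5 : 0 ≤ ε * te := mul_nonneg hε.le (by linarith)
      simp only [Complex.add_re, Complex.one_re]
      linarith), le_min (by
      have a1 := sq _ him
      have a2 := nsq (g te + 1)
      have a3 : √(t1 ^ 2 - (g te).im ^ 2) ≤ t1 :=
        Real.sqrt_le_iff.2 ⟨ht1.le, by linarith [sq_nonneg (g te).im]⟩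
      have a4 := mul_le_mul_of_nonneg_right a3 (sub_nonneg.2 h1)
      rw [hρ, Complex.add_im, Complex.one_im, add_zero] at a2
      have a5 : √(t1 ^ 2 - (g te).im ^ 2) + (te - t1) ≤ (g te + 1).re :=
        le_of_sq_le_sq (by linarith) hre
      linarith) (by linarith)⟩)
  have t0 : t1 ≤ t := h1.trans ht.1
  have b1 := (hz.ge.trans (min_le_left _ _))
  have b2 := (hz.ge.trans (min_le_right _ _))
  have b3 : |(g t).im| ≤ W := by linarith
  rcases min_choice ((g t + 1).re - (t - t1) - √(t1 ^ 2 - (g t).im ^ 2)) (W - |(g t).im|) with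
    h | h
  · left
    have c1 : (g t + 1 - ((t - t1 : ℝ) : ℂ)).re = √(t1 ^ 2 - (g t).im ^ 2) := by
      rw [Complex.sub_re, Complex.ofReal_re]
      linarith [h.symm.trans hz]
    have c2 : (g t + 1 - ((t - t1 : ℝ) : ℂ)).im = (g t).im := by simp
    have c3 : ‖g t + 1 - ((t - t1 : ℝ) : ℂ)‖ = t1 := by
      rw [← sq_eq_sq₀ (norm_nonneg _) ht1.le, nsq, c1, c2, sq _ b3]
      ring
    have c4 := norm_mul_cis_arg (g t + 1 - ((t - t1 : ℝ) : ℂ))
    refine ⟨t, Complex.arg (g t + 1 - ((t - t1 : ℝ) : ℂ)), by linarith, hθ _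
      (Complex.abs_arg_le_pi_div_two_iff.2 (by rw [c1]; positivity)) ?_, ?_⟩
    · rw [Complex.sin_arg, c2, c3, abs_div, abs_of_pos ht1]
      gcongr
    · rw [hook, min_eq_right t0, max_eq_left t0]
      rw [c3] at c4
      rw [c4]
      ring
  · right
    have c1 : |(g t).im| = W := by linarith [h.symm.trans hz]
    have c2 : (g t).im ^ 2 = W ^ 2 := by rw [← c1, sq_abs]
    rw [c2] at b1
    refine ⟨t, by linarith, c1, ?_, by linarith, by linarith⟩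
    have c3 := hL t te
    rw [abs_of_nonneg (sub_nonneg.2 ht.1), Complex.dist_eq] at c3
    have c4 := norm_add_le (g t - g te) (g te + 1)
    rw [show g t - g te + (g te + 1) = g t + 1 by ring, hρ] at c4
    nlinarith [mul_nonneg hε.le (sub_nonneg.2 ht.1)]

end Pool.Agent.MP_66a317_pr.Drop
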