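import Pool.Agent.MP_66a317_pr.Drop.Geo

open MeasureTheory Set Filter
open scoped ENNReal

namespace Pool.Agent.MP_66a317_pr.Drop

open Fast All

/-- hooks, a barrier ray, slow spirals and side runners -/
noncomputable def fam3 (e κ t0 t1 B W θ V μ ν φ t : ℝ) : ℂ :=
  if φ < 2 * θ then hook t1 (cis (φ - θ)) t
  else if φ < 2 * θ + 2 * V then -1 + (t : ℂ) * cis B
  else if φ < 2 * θ + 2 * V + μ * (4 * B) then
    spath (fun _ => e) (fun _ => 0) t0 ((φ - (2 * θ + 2 * V)) / μ - 2 * B) κ 0 t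
  else side W ((φ - (2 * θ + 2 * V + μ * (4 * B))) / ν) t

theorem win {P r u v x : ℝ} {σ : ℝ → ℝ → ℂ} {g : ℝ → ℂ} (h0 : 0 ≤ u) (h1 : v ≤ P) (hx : x ≤ v - u)
    (h : ∀ φ, u ≤ φ → φ < v → ∃ t, 0 ≤ t ∧ dist (σ φ t) (g t) ≤ r) :
    ENNReal.ofReal x ≤ volume {φ | φ ∈ Ico 0 P ∧ ∃ t, 0 ≤ t ∧ dist (σ φ t) (g t) ≤ r} := by
  refine le_trans ?_ (measure_mono (s := Ico u v) fun φ hφ =>
    ⟨⟨h0.trans hφ.1, hφ.2.trans_le h1⟩, h φ hφ.1 hφ.2⟩)
  rw [Real.volume_Ico]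
  exact ENNReal.ofReal_le_ofReal hx

theorem hook_dist {a x x' t : ℝ} (ha : 0 ≤ a) (ht : 0 ≤ t) :
    dist (hook a (cis x) t) (hook a (cis x') t) ≤ a * |x - x'| := by
  have h0 : 0 ≤ min t a := le_min ht ha
  rw [hook, hook, dist_add_right, dist_add_left]
  refine le_of_sq_le_sq ((chord_le h0 h0 x x').trans ?_) (by positivity)
  rw [sub_self, mul_pow, sq_abs, sq a, zero_pow two_ne_zero, zero_add]
  gcongr <;> exact min_le_right _ _

theorem low3 {ε δ m e κ t0 t1 T0 lam B W θ Z Vs W1 D V μ ν P : ℝ} (hε : 0 < ε) (hε1 : ε < 1)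
    (hδ : 0 < δ) (hm : 0 ≤ m) (hδm : δ + m < 1) (he : 0 ≤ e) (he1 : e ≤ 1) (hκ0 : 0 ≤ κ)
    (hκ : (1 - e) ^ 2 + κ ^ 2 ≤ 1) (ht0 : 0 < t0) (hlam : 1 ≤ lam) (h01 : lam * t0 ≤ t1)
    (hT0 : δ + m ≤ ε * T0) (h0T : t0 ≤ T0) (hem : e * (lam * T0) ≤ m) (hVs : 0 < Vs)
    (hVs1 : Vs ≤ κ * Real.log lam) (hκB : κ * clock t0 (lam * T0) ≤ B) (hB : 0 < B) (hB1 : B ≤ 1)
    (hcos : Real.cos B ≤ 1 - δ)
    (hW1 : ∀ t x, 0 ≤ t → |x| ≤ B → 1 - (δ + m) + ε * t ≤ Real.cos x → t * |x| ≤ W1)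
    (hD0 : 0 ≤ D) (hD : 8 * ((lam - 1) * T0) ≤ D ^ 2) (hWD : lam * (W1 + D) ≤ W) (hW : 0 < W)
    (hWt : W ≤ t1) (hθ : ∀ x, |x| ≤ Real.pi / 2 → |Real.sin x| ≤ W / t1 → |x| ≤ θ - 1 / t1)
    (hBθ : B ≤ θ - 1 / t1) (hZ : t1 - Z ≤ √(t1 ^ 2 - W ^ 2)) (hZ1 : 1 ≤ t1 - Z) (hZ0 : 0 ≤ Z)
    (hV : V = 2 * ((1 - δ) / t1)) (hμ : μ = V / Vs) (hν : ν = 2 * V / (1 - δ))
    (hP : P = 2 * θ + 2 * V + μ * (4 * B) + ν * (Z + 1)) :
    ENNReal.ofReal (1 / (2 * P) * (2 * V)) ≤ value (1 - δ) (1 - ε) (-1) := by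
  have hr : 0 < 1 - δ := by linarith
  have ht1 : 0 < t1 := hW.trans_le hWt
  have i1 : 0 < 1 / t1 := by positivity
  have i2 : (1 - δ) / t1 ≤ 1 / t1 := by gcongr; linarith
  have V0 : 0 < V := by rw [hV]; positivity
  have μ0 : 0 < μ := by rw [hμ]; positivity
  have ν0 : 0 < ν := by rw [hν]; positivity
  have θ0 : 0 < θ := by linarith
  have p1 : 0 < μ * (4 * B) := by positivity
  have p2 : 0 < ν * (Z + 1) := by positivity
  refine bridge_sum (1 - δ) (1 - ε) P (2 * V) (fam3 e κ t0 t1 B W θ V μ ν) (by linarith)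
    (by linarith) (fun φ => ?_) (fun φ s t hs ht => ?_) (fun t => ?_) fun h h0 hL => ?_
  · unfold fam3
    split_ifs
    · exact (hook_lip ht1.le (norm_cis _)).1
    · simp
    · exact (spiral_lip he he1 hκ ht0 _).1
    · exact (hook_lip (by positivity) (side_norm hW _)).1
  · unfold fam3
    split_ifs
    · exact (hook_lip ht1.le (norm_cis _)).2 s t
    · rw [dist_add_left, dist_mul_cis, Complex.dist_eq, ← Complex.ofReal_sub, Complex.norm_real,
        Real.norm_eq_abs]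
    · exact (spiral_lip he he1 hκ ht0 _).2 s t hs ht
    · exact (hook_lip (by positivity) (side_norm hW _)).2 s t
  · unfold fam3 spath side hook
    exact Measurable.ite measurableSet_Iio (Continuous.measurable (by fun_prop))
      (Measurable.ite measurableSet_Iio measurable_const (Measurable.ite measurableSet_Iio
        (Continuous.measurable (by fun_prop)) (by fun_prop)))
  set S : (ℝ → ℂ) → ℝ≥0∞ := fun g => volume {φ | φ ∈ Ico 0 P ∧ ∃ t, 0 ≤ t ∧
    dist (fam3 e κ t0 t1 B W θ V μ ν φ t) (g t) ≤ 1 - δ} with hS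
  have wM : ∀ (g : ℝ → ℂ) t x, 0 ≤ t → |x| ≤ θ - 1 / t1 → g t = hook t1 (cis x) t →
      ENNReal.ofReal V ≤ S g := fun g t x ht hx hg => by
    obtain ⟨x1, x2⟩ := abs_le.1 hx
    refine win (u := x + θ - (1 - δ) / t1) (v := x + θ + (1 - δ) / t1) (by linarith) (by linarith)
      (by linarith) fun φ a1 a2 => ⟨t, ht, ?_⟩
    rw [fam3, if_pos (by linarith), hg]
    refine (hook_dist ht1.le ht).trans ?_
    rw [← le_div_iff₀' ht1, abs_le]
    constructor <;> linarith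
  have wB : ∀ g : ℝ → ℂ, (∃ s : ℝ, 0 ≤ s ∧ dist (-1 + (s : ℂ) * cis B) (g s) ≤ 1 - δ) →
      ENNReal.ofReal (2 * V) ≤ S g := fun g ⟨s, s0, hs⟩ =>
    win (u := 2 * θ) (v := 2 * θ + 2 * V) (by linarith) (by linarith) (by linarith)
      fun φ a1 a2 => ⟨s, s0, by rwa [fam3, if_neg (not_lt.2 a1), if_pos a2]⟩
  have wS : ∀ (g : ℝ → ℂ) z1 z2, -(2 * B) ≤ z1 → z2 ≤ 2 * B → (∀ z ∈ Ico z1 z2, ∃ t, 0 ≤ t ∧
      dist (spath (fun _ => e) (fun _ => 0) t0 z κ 0 t) (g t) ≤ 1 - δ) →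
      ENNReal.ofReal (μ * (z2 - z1)) ≤ S g := fun g z1 z2 a1 a2 hz => by
    have a3 : 0 ≤ μ * (z1 + 2 * B) := mul_nonneg μ0.le (by linarith)
    have a4 : μ * (z2 + 2 * B) ≤ μ * (4 * B) := by gcongr; linarith
    refine win (u := 2 * θ + 2 * V + μ * (z1 + 2 * B)) (v := 2 * θ + 2 * V + μ * (z2 + 2 * B))
      (by linarith) (by linarith) (by linarith) fun φ b1 b2 => ?_
    rw [show fam3 e κ t0 t1 B W θ V μ ν φ = spath (fun _ => e) (fun _ => 0) t0
      ((φ - (2 * θ + 2 * V)) / μ - 2 * B) κ 0 from funext fun t => by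
        rw [fam3, if_neg (by linarith), if_neg (by linarith), if_pos (by linarith)]]
    refine hz _ ⟨?_, ?_⟩
    · rw [le_sub_iff_add_le, le_div_iff₀' μ0]
      linarith
    · rw [sub_lt_iff_lt_add, div_lt_iff₀' μ0]
      linarith
  have wD : ∀ (g : ℝ → ℂ) t, 0 ≤ t → (g t).im = W → ‖g t + 1‖ ≤ t → 1 ≤ (g t + 1).re →
      t - (g t + 1).re ≤ Z → ENNReal.ofReal (2 * V) ≤ S g := fun g t ht a1 a2 a3 a4 => by
    have a5 := (g_side hW a1 a2 a3 le_rfl ⟨le_rfl, lt_add_one _⟩).1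
    have a6 : 0 < ν * (t - (g t + 1).re) := by positivity
    have a7 : ν * (t - (g t + 1).re + (1 - δ)) ≤ ν * (Z + 1) := by gcongr; linarith
    have a8 : ν * (1 - δ) = 2 * V := by
      rw [hν]
      field_simp
    refine win (u := 2 * θ + 2 * V + μ * (4 * B) + ν * (t - (g t + 1).re))
      (v := 2 * θ + 2 * V + μ * (4 * B) + ν * (t - (g t + 1).re + (1 - δ))) (by linarith)
      (by linarith) (by linarith) fun φ b1 b2 => ⟨t, ht, ?_⟩
    rw [fam3, if_neg (by linarith), if_neg (by linarith), if_neg (by linarith)]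
    refine (g_side hW a1 a2 a3 (by linarith) ⟨?_, ?_⟩).2
    · rw [le_div_iff₀' ν0]
      linarith
    · rw [div_lt_iff₀' ν0]
      linarith
  change ENNReal.ofReal (2 * V) ≤ S h + S fun t => (starRingEnd ℂ) (h t)
  have wM2 : ∀ t x, 0 ≤ t → |x| ≤ θ - 1 / t1 → h t = hook t1 (cis x) t →
      ENNReal.ofReal (2 * V) ≤ S h + S fun t => (starRingEnd ℂ) (h t) := fun t x ht hx hg =>
    le_trans (le_trans (ENNReal.ofReal_le_ofReal (by linarith)) ENNReal.ofReal_add_le)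
      (add_le_add (wM h t x ht hx hg) (wM _ t (-x) ht (by rwa [abs_neg]) (by
        simp only [hg, hook, map_add, map_mul, map_neg, map_one, Complex.conj_ofReal, conj_cis])))
  clear_value S
  have hc : Continuous h := by
    refine (LipschitzWith.of_dist_le_mul (K := ⟨1 - ε, by linarith⟩) fun s t => ?_).continuous
    rw [Real.dist_eq]
    exact hL s t
  have hn : ∀ t, 0 ≤ t → ‖h t‖ ≤ (1 - ε) * t := fun t ht => by
    have := hL t 0
    rwa [h0, dist_zero_right, sub_zero, abs_of_nonneg ht] at this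
  have hd : ∀ s t, s ≤ t → dist (h s + 1) (h t + 1) ≤ t - s := fun s t hst => by
    have := hL s t
    rw [abs_sub_comm, abs_of_nonneg (sub_nonneg.2 hst)] at this
    rw [dist_add_right]
    linarith [mul_nonneg hε.le (sub_nonneg.2 hst)]
  have T00 : 0 ≤ T0 := ht0.le.trans h0T
  obtain ⟨tv, v0, v1, v2, v3⟩ := stop_Cap (f := fun t => ‖h t + 1‖ - t - (1 - δ - m)) (T := T0)
    (by fun_prop) (by simp [h0]; linarith) T00
  have v4 : ‖h tv + 1‖ = tv + (1 - δ - m) := by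
    rcases v3 with v3 | v3
    · have a1 := v2 tv v0 le_rfl
      have a2 := norm_add_le_of_le (hn tv v0) (norm_one (α := ℂ)).le
      rw [← v3] at hT0
      linarith
    · linarith
  set s0 := max tv t0 with hs0
  have s00 : t0 ≤ s0 := le_max_right _ _
  have s0T : s0 ≤ T0 := max_le v1 h0T
  have s01 : s0 ≤ lam * s0 := le_mul_of_one_le_left (by linarith) hlam
  have s1T : lam * s0 ≤ lam * T0 := by gcongr
  obtain ⟨te, hte0, hteT, hge, hend⟩ := stop_Cap (f := fun t => ‖h t + 1‖ - t) (T := lam * s0)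
    (by fun_prop) (by simp [h0]) (by linarith)
  have hge' : ∀ t, 0 ≤ t → t ≤ te → t ≤ ‖h t + 1‖ := fun t h1 h2 => by
    have := hge t h1 h2
    linarith
  have hcj : ∀ t, (starRingEnd ℂ) (h t) + 1 = (starRingEnd ℂ) (h t + 1) := fun t => by simp
  have hc2 : Continuous fun t => (starRingEnd ℂ) (h t) := Complex.continuous_conj.comp hc
  have hn2 : ∀ t, 0 ≤ t → ‖(starRingEnd ℂ) (h t)‖ ≤ (1 - ε) * t := fun t ht => by
    simpa using hn t ht
  have hge2 : ∀ t, 0 ≤ t → t ≤ te → t ≤ ‖(starRingEnd ℂ) (h t) + 1‖ := fun t h1 h2 => by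
    rw [hcj, Complex.norm_conj]
    exact hge' t h1 h2
  have harg : ∀ t, 0 ≤ t → t ≤ te →
      Complex.arg ((starRingEnd ℂ) (h t) + 1) = -Complex.arg (h t + 1) := fun t h1 h2 => by
    rw [hcj, Complex.arg_conj, if_neg (Complex.slitPlane_arg_ne_pi
      (slit_Cap ((hn t h1).trans (by linarith [mul_nonneg hε.le h1])) (hge' t h1 h2)))]
  by_cases c1 : ∃ t, 0 ≤ t ∧ t ≤ te ∧ B ≤ Complex.arg (h t + 1)
  · obtain ⟨t, a1, a2, a3⟩ := c1
    exact le_add_right (wB h (g_bar hε hB.le hcos hc h0 hn hge' a1 a2 a3))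
  by_cases c2 : ∃ t, 0 ≤ t ∧ t ≤ te ∧ B ≤ -Complex.arg (h t + 1)
  · obtain ⟨t, a1, a2, a3⟩ := c2
    exact le_add_left (wB _ (g_bar (g := fun t => (starRingEnd ℂ) (h t)) hε hB.le hcos hc2
      (by simp [h0]) hn2 hge2 a1 a2 (by rwa [harg t a1 a2])))
  have c3 : ∀ t, 0 ≤ t → t ≤ te → |Complex.arg (h t + 1)| ≤ B := fun t a1 a2 =>
    abs_le.2 ⟨by linarith [not_le.1 fun a3 => c2 ⟨t, a1, a2, a3⟩],
      (not_le.1 fun a3 => c1 ⟨t, a1, a2, a3⟩).le⟩
  rcases hend with hend | hend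
  · rw [hend] at hge' hge2 harg c3
    have s0' : 0 ≤ s0 := by linarith
    have hl : ∀ t, s0 ≤ t → t ≤ lam * s0 → ‖h t + 1‖ - (1 - e) * t ≤ 1 - δ := fun t a1 a2 => by
      have a3 := hd tv t ((le_max_left _ _).trans a1)
      have a4 := norm_sub_norm_le (h t + 1) (h tv + 1)
      rw [dist_comm, Complex.dist_eq] at a3
      linarith [mul_le_mul_of_nonneg_left (a2.trans s1T) he]
    obtain ⟨b1, b2⟩ := abs_le.1 (c3 s0 s0' s01)
    obtain ⟨b3, b4⟩ := abs_le.1 (c3 _ (s0'.trans s01) le_rfl)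
    have k1 : 0 ≤ κ * clock t0 s0 := mul_nonneg hκ0 (clock_nonneg ht0 _)
    have k2 : κ * clock t0 (lam * s0) ≤ B :=
      (mul_le_mul_of_nonneg_left (clock_mono ht0 s1T) hκ0).trans hκB
    have k3 : clock t0 (lam * s0) = Real.log lam + clock t0 s0 := by
      rw [clock_of_ge (s00.trans s01), clock_of_ge s00, mul_div_assoc,
        Real.log_mul (by linarith) (div_pos (by linarith) ht0).ne']
    have e1 := harg s0 s0' s01
    have e2 := harg _ (s0'.trans s01) le_rfl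
    refine le_trans ?_ (add_le_add
      (wS h _ _ (by linarith) (by linarith) fun z hz =>
        g_sweep hε he ht0 s00 s01 hc hn hge' hl hz)
      (wS _ _ _ (by rw [e2]; linarith) (by rw [e1]; linarith) fun z hz =>
        g_sweep (g := fun t => (starRingEnd ℂ) (h t)) hε he ht0 s00 s01 hc2 hn2 hge2
          (fun t a1 a2 => by rw [hcj, Complex.norm_conj]; exact hl t a1 a2) hz))
    refine le_trans (ENNReal.ofReal_le_ofReal ?_) ENNReal.ofReal_add_le
    have k4 : μ * Vs = V := by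
      rw [hμ]
      field_simp
    rw [e1, e2, k3]
    linarith [mul_le_mul_of_nonneg_left hVs1 μ0.le]
  have hρ : ‖h te + 1‖ = te := by linarith
  have hpe := polar (h te)
  have ce := c3 te hte0 le_rfl
  rw [hρ] at hpe
  rcases le_or_gt te t1 with d1 | d1
  · refine wM2 te _ hte0 (ce.trans hBθ) ?_
    rw [hook, min_eq_left d1, max_eq_right d1, sub_self, Complex.ofReal_zero, add_zero]
    exact hpe
  have d2 : s0 = tv := by
    rcases max_choice tv t0 with a | a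
    · exact a
    · rw [hs0, a] at hteT
      linarith
  have d3 : tv ≤ te := by
    by_contra a
    linarith [v2 te hte0 (not_le.1 a).le]
  have d4 : 0 < tv := by linarith
  have cv := c3 tv v0 d3
  have d5 := lead (h tv)
  have d6 := hd tv te d3
  rw [← norm_mul_cis_arg (h tv + 1), ← norm_mul_cis_arg (h te + 1), v4, hρ] at d6
  have d7 := g_lat d4 d3 (d2 ▸ hteT) v1 (by linarith) (by linarith)
    ((abs_sub _ _).trans (by linarith)) hD0 hD (hW1 tv _ v0 cv (by linarith [hn tv v0])) d6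
  have d8 : |(h te).im| ≤ W := by
    have a1 : (h te).im = te * Real.sin (Complex.arg (h te + 1)) := by
      conv_lhs => rw [hpe]
      simp
    rw [a1, abs_mul, abs_of_nonneg hte0]
    linarith [mul_le_mul_of_nonneg_left (Real.abs_sin_le_abs (x := Complex.arg (h te + 1))) hte0]
  rcases g_wedge hε hc hn hL ht1 hWt hθ hZ hZ1 d1.le hρ
    (Complex.abs_arg_le_pi_div_two_iff.1 (by linarith [Real.pi_gt_three])) d8 with
    ⟨t, x, a1, a2, a3⟩ | ⟨t, a1, a2, a3, a4, a5⟩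
  · exact wM2 t x a1 a2 a3
  rcases (abs_eq hW.le).1 a2 with a6 | a6
  · exact le_add_right (wD h t a1 a6 a3 a4 a5)
  · exact le_add_left (wD _ t a1 (by simp [a6]) (by rwa [hcj, Complex.norm_conj])
      (by rwa [hcj, Complex.conj_re]) (by rwa [hcj, Complex.conj_re]))

end Pool.Agent.MP_66a317_pr.Drop
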