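import Pool.Agent.MP_66a317_pr.Drop.Low
import Pool.Agent.MP_66a317_pr.All.Num

open MeasureTheory Set Filter
open scoped ENNReal

namespace Pool.Agent.MP_66a317_pr.Drop

open Fast All

theorem ln1 {a b γ k τ t x : ℝ} (hγ : 0 < γ) (hγ1 : γ ≤ 1 / 10) (ha : 0 < a) (hb : 0 < b)
    (k0 : 0 < k) (k2 : k ^ 2 = 2 / 3) (hτ : a ^ 2 * τ = b ^ 2) (τ0 : 0 < τ) (b1 : 9 * b ^ 2 ≤ γ)
    (ht : 0 ≤ t) (hx : |x| ≤ 3 * b) (h : 1 - (b ^ 2 + γ * b ^ 2) + a ^ 2 * t ≤ Real.cos x) :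
    t * |x| ≤ (1 + 3 * γ) * (k ^ 3 * b * τ) := by
  have x2 : x ^ 2 ≤ γ := by
    have := pow_le_pow_left₀ (abs_nonneg x) hx 2
    rw [sq_abs] at this
    linarith
  have h1 := cos_le_of_abs_le_one (x := x) (by rw [← sq_le_one_iff_abs_le_one]; linarith)
  have h2 : x ^ 2 * x ^ 2 ≤ γ * x ^ 2 := by gcongr
  have h3 : 0 ≤ γ * x ^ 2 := by positivity
  have h4 : (1 - γ) * x ^ 2 ≤ 2 * ((1 + γ) * b ^ 2 - a ^ 2 * t) := by linarith
  have h5 := mul_le_mul_of_nonneg_left h4 (sq_nonneg (a ^ 2 * t))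
  have h6 : 0 ≤ (3 * (a ^ 2 * t) - 2 * ((1 + γ) * b ^ 2)) ^ 2 *
      (3 * (a ^ 2 * t) + (1 + γ) * b ^ 2) := by positivity
  have h7 : (1 + γ) ^ 3 ≤ (1 - γ) * (1 + 3 * γ) ^ 2 := by nlinarith [mul_pos hγ hγ]
  have h8 := mul_le_mul_of_nonneg_right h7 (show 0 ≤ (b ^ 2) ^ 3 by positivity)
  have hu : 0 < (1 - γ) * (a ^ 2) ^ 2 := by
    have : 0 < 1 - γ := by linarith
    positivity
  refine le_of_sq_le_sq (le_of_mul_le_mul_left ?_ hu) (by positivity)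
  have e : (1 - γ) * (a ^ 2) ^ 2 * ((1 + 3 * γ) * (k ^ 3 * b * τ)) ^ 2 =
      8 / 27 * ((1 - γ) * (1 + 3 * γ) ^ 2 * (b ^ 2) ^ 3) := by
    calc _ = (k ^ 2) ^ 3 * ((1 - γ) * (1 + 3 * γ) ^ 2 * (b ^ 2 * (a ^ 2 * τ) ^ 2)) := by ring
      _ = _ := by
        rw [k2, hτ]
        ring
  rw [e, mul_pow, sq_abs]
  linarith

theorem ln2 {B γ x : ℝ} (hB : 0 < B) (hγ : 4 / 3 * B ^ 2 ≤ γ) (hx : |x| ≤ Real.pi / 2)
    (h : |Real.sin x| ≤ B) : |x| ≤ (1 + γ) * B := by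
  have e : Real.sin |x| ≤ B := by
    rcases abs_choice x with h1 | h1 <;> rw [h1]
    · exact (le_abs_self _).trans h
    · rw [Real.sin_neg]
      exact (neg_le_abs _).trans h
  have γ0 : 0 ≤ γ * B := mul_nonneg (le_trans (by positivity) hγ) hB.le
  rcases (abs_nonneg x).eq_or_lt with h0 | h0
  · linarith
  have h1 := Real.mul_le_sin h0.le hx
  have h2 : 1 / 2 * |x| ≤ 2 / Real.pi * |x| := by
    gcongr ?_ * _
    rw [le_div_iff₀ Real.pi_pos]
    linarith [Real.pi_le_four]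
  have h3 := Real.sin_gt_sub_cube h0
  have h4 : |x| ^ 3 ≤ (2 * B) ^ 3 := by gcongr; linarith
  linarith [mul_le_mul_of_nonneg_right hγ hB.le]

theorem ln3 {γ N r t1 B W q V Vs : ℝ} (hγ : 0 < γ) (hγ1 : γ ≤ 1 / 10) (hN : 10 ≤ γ * N)
    (hr : 1 - γ ≤ r) (ht : 0 < t1) (hB : 0 < B) (hB1 : B ≤ γ / 2) (hW : W = (1 + 6 * γ) * N)
    (hBt : B * t1 = W) (hV : V = 2 * (r / t1)) (hVs : 0 < Vs) (hq : 4 * B ≤ γ * N * Vs)
    (e : q = 2 * ((1 + γ) * B + 1 / t1) + 2 * V + V / Vs * (4 * B) + 2 * V / r * (B * W + 1)) :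
    (1 - 14 * γ) / N ≤ 1 / (2 * q) * (2 * V) := by
  have N0 : 0 < N := (mul_pos_iff_of_pos_left hγ).1 (by linarith)
  have r0 : 0 < r := by linarith
  have V0 : 0 < V := by rw [hV]; positivity
  have W0 : 0 < W := by rw [hW]; positivity
  have q0 : 0 < q := by rw [e]; positivity
  have g1 : γ * (γ * N) ≤ 1 / 10 * (γ * N) := by gcongr
  have a1 : B * W ≤ γ / 2 * ((1 + 6 * γ) * N) := by rw [← hW]; gcongr
  have a2 : (1 + γ) * W + 1 + 2 * (B * W + 1) ≤ (1 + 19 / 2 * γ) * N := by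
    rw [show (1 + γ) * W = (1 + γ) * ((1 + 6 * γ) * N) by rw [hW]]
    linarith
  have a3 : ((1 + γ) * W + 1 + 2 * (B * W + 1)) / r ≤ (1 + 12 * γ) * N := by
    rw [div_le_iff₀ r0]
    have a4 : 1 + 19 / 2 * γ ≤ (1 + 12 * γ) * (1 - γ) := by nlinarith
    calc _ ≤ (1 + 19 / 2 * γ) * N := a2
      _ ≤ (1 + 12 * γ) * r * N := by
          gcongr
          exact a4.trans (by gcongr)
      _ = _ := by ring
  have a5 : 4 * B / Vs ≤ γ * N := (div_le_iff₀ hVs).2 hq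
  have a6 : q = V * (((1 + γ) * W + 1 + 2 * (B * W + 1)) / r + 2 + 4 * B / Vs) := by
    rw [e, hV, show (1 + γ) * W = (1 + γ) * (B * t1) by rw [hBt]]
    field_simp
    ring
  have a7 : q ≤ V * ((1 + 14 * γ) * N) := by
    rw [a6]
    gcongr
    linarith
  calc _ ≤ 1 / ((1 + 14 * γ) * N) := by
        rw [div_le_div_iff₀ N0 (by positivity)]
        nlinarith [mul_pos hγ (mul_pos hγ N0)]
    _ = V / (V * ((1 + 14 * γ) * N)) := by field_simp
    _ ≤ V / q := by gcongr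
    _ = _ := by field_simp

theorem low_drop {a b γ k τ : ℝ} (hγ : 0 < γ) (hγ1 : γ ≤ 1 / 10) (ha : 0 < a) (hb : 0 < b)
    (k0 : 0 < k) (k2 : k ^ 2 = 2 / 3) (hτ : a ^ 2 * τ = b ^ 2) (h1 : b ≤ γ ^ 3 / 100)
    (h2 : a ≤ γ ^ 3 / 100 * b ^ 2) :
    ENNReal.ofReal ((1 - 14 * γ) / (k ^ 3 * b * τ)) ≤ value (1 - b ^ 2) (1 - a ^ 2) (-1) := by
  have τ0 : 0 < τ := (mul_pos_iff_of_pos_left (pow_pos ha 2)).1 (by rw [hτ]; positivity)
  have k3 : 1 / 2 ≤ k ^ 3 ∧ k ^ 3 ≤ 2 / 3 := by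
    have a1 : 4 / 5 ≤ k := le_of_sq_le_sq (by linarith) k0.le
    have a2 : k ≤ 1 := le_of_sq_le_sq (by linarith) zero_le_one
    rw [pow_succ, k2]
    constructor <;> linarith
  have g3 : γ ^ 3 ≤ γ * (1 / 10) ^ 2 := by
    rw [pow_succ']
    gcongr
  have b0 : b ≤ γ / 10000 := by linarith
  have b1 : b ^ 2 ≤ b * 1 := by
    rw [sq]
    gcongr
    linarith
  have a0 : a ≤ γ / 10000 * b ^ 2 :=
    h2.trans (mul_le_mul_of_nonneg_right (by linarith) (sq_nonneg b))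
  have a1 : a ≤ b ^ 2 := a0.trans (mul_le_of_le_one_left (sq_nonneg b) (by linarith))
  have a2 : a ^ 2 ≤ a * 1 := by
    rw [sq]
    gcongr
    linarith
  have n0 : 10000 ≤ γ * (b ^ 2 * τ) := by
    have c2 : (γ / 10000 * b ^ 2) ^ 2 * τ ≥ a ^ 2 * τ := by gcongr
    have c3 : b ^ 2 * 1 ≤ b ^ 2 * (γ / 10000 * (γ * (b ^ 2 * τ)) / 10000) := by
      rw [hτ] at c2
      linarith
    have c4 := le_of_mul_le_mul_left c3 (pow_pos hb 2)
    have c5 : γ * (γ * (b ^ 2 * τ)) ≤ 1 * (γ * (b ^ 2 * τ)) := by gcongr; linarith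
    linarith
  have n1 : γ * (b ^ 2 * τ) ≤ γ * (b * τ) := by gcongr; linarith
  have n2 : γ * (b * τ) ≤ 1 * (1 * τ) := by gcongr <;> linarith
  have hN : 10 ≤ γ * (k ^ 3 * b * τ) := by
    linarith [mul_le_mul_of_nonneg_right k3.1 (show 0 ≤ γ * (b * τ) by positivity)]
  set N := k ^ 3 * b * τ with hNd
  have N0 : 0 < N := by positivity
  set t1 := (1 + 6 * γ) * k ^ 3 * τ / 3 with ht1
  have t1a : (1 + 0) * (1 / 2) * τ / 3 ≤ t1 := by
    rw [ht1]
    gcongr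
    · linarith
    · exact k3.1
  have t1b : t1 ≤ (1 + 6 * (1 / 10)) * (2 / 3) * τ / 3 := by
    rw [ht1]
    gcongr
    exact k3.2
  have t10 : 0 < t1 := by linarith
  have eW : 3 * b * t1 = (1 + 6 * γ) * N := by
    rw [ht1, hNd]
    ring
  have γτ : γ * τ ≤ 1 / 10 * τ := by gcongr
  have γ2 : (1 + γ) * (1 + γ) ≤ (1 + 1 / 10) * (1 + 1 / 10) := by gcongr
  have hγb : 0 < γ * b ^ 2 := by positivity
  have hγb1 : γ * b ^ 2 ≤ 1 * b ^ 2 := by gcongr; linarith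
  have hγa : γ * a ^ 2 ≤ 1 * a ^ 2 := by gcongr; linarith
  have bt : 9 * b ^ 2 * t1 ≤ 1 / 2 * t1 := by gcongr; linarith
  have h := low3 (ε := a ^ 2) (δ := b ^ 2) (m := γ * b ^ 2) (e := γ * a ^ 2 / 2) (κ := γ * a / 2)
    (t0 := t1 / 2) (t1 := t1) (T0 := (1 + γ) * τ) (lam := 1 + γ) (B := 3 * b)
    (W := (1 + 6 * γ) * N) (θ := (1 + γ) * (3 * b) + 1 / t1) (Z := 3 * b * ((1 + 6 * γ) * N))
    (Vs := γ ^ 2 * a / 4) (W1 := (1 + 3 * γ) * N) (D := γ * N) (by positivity) (by linarith)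
    (by positivity) hγb.le (by linarith) (by positivity) (by linarith) (by positivity)
    (by
      have c1 : γ * a ^ 2 * (γ * a ^ 2) ≤ γ * a ^ 2 * 1 := by gcongr; linarith
      have c2 : γ * a ^ 2 * γ ≤ γ * a ^ 2 * 1 := by gcongr; linarith
      have c3 : 0 ≤ γ * a ^ 2 := by positivity
      linarith)
    (by positivity) (by linarith) (by linarith [mul_le_mul_of_nonneg_right hγ1 t10.le])
    (le_of_eq (by rw [← hτ]; ring)) (by linarith [mul_pos hγ τ0])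
    (by
      calc _ = (1 + γ) * (1 + γ) / 2 * (γ * (a ^ 2 * τ)) := by ring
        _ ≤ 1 * (γ * b ^ 2) := by rw [hτ]; gcongr; linarith
        _ = _ := one_mul _)
    (by positivity)
    (by
      calc _ = γ * a / 2 * (γ / 2) := by ring
        _ ≤ _ := by gcongr; exact half_le_log hγ.le (by linarith))
    (by
      have c1 : (1 + γ) * ((1 + γ) * τ) ≤ 15 * (t1 / 2) := by
        linarith [mul_le_mul_of_nonneg_right γ2 τ0.le]
      have c2 := clock_mono (half_pos t10) c1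
      rw [clock_of_ge (t := 15 * (t1 / 2)) (by linarith), mul_div_cancel_right₀ _ (by positivity)]
        at c2
      have c3 := Real.log_le_sub_one_of_pos (show (0 : ℝ) < 15 by norm_num)
      calc _ ≤ 1 / 10 * a / 2 * 14 := by
            gcongr
            · exact clock_nonneg (half_pos t10) _
            · linarith
        _ ≤ _ := by linarith)
    (by positivity) (by linarith)
    (by linarith [cos_Near (x := 3 * b) (by rw [abs_of_pos (by positivity)]; linarith),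
      sq_nonneg b])
    (fun t x ht hx hc => ln1 hγ hγ1 ha hb k0 k2 hτ τ0 (by linarith) ht hx hc) (by positivity)
    (by
      calc _ = 8 * (1 + γ) * (γ * τ) := by ring
        _ ≤ (1 / 2) ^ 2 * (γ * (b ^ 2 * τ)) * (γ * τ) :=
            mul_le_mul_of_nonneg_right (by linarith) (by positivity)
        _ ≤ (k ^ 3) ^ 2 * (γ * (b ^ 2 * τ)) * (γ * τ) := by gcongr; exact k3.1
        _ = _ := by rw [hNd]; ring)
    (by linarith [mul_le_mul_of_nonneg_right hγ1 (show 0 ≤ γ * N by positivity)])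
    (by positivity) (by rw [← eW]; exact mul_le_of_le_one_left t10.le (by linarith))
    (fun x hx hs => by
      rw [← eW, mul_div_cancel_right₀ _ t10.ne'] at hs
      rw [add_sub_cancel_right]
      exact ln2 (by positivity) (by linarith) hx hs)
    (by linarith [mul_pos hγ hb])
    (by
      rw [← eW]
      refine Real.le_sqrt_of_sq_le ?_
      have c1 : 9 * b ^ 2 * (9 * b ^ 2 * t1 ^ 2) ≤ 1 * (9 * b ^ 2 * t1 ^ 2) := by gcongr; linarith
      linarith)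
    (by rw [← eW]; linarith) (by positivity) rfl rfl rfl rfl
  refine le_trans (ENNReal.ofReal_le_ofReal (ln3 hγ hγ1 hN (by linarith) t10 (by positivity)
    (by linarith) rfl eW rfl (by positivity) ?_ rfl)) h
  have c1 : a * 100 * (a * τ * b) ≤ γ ^ 3 * b ^ 2 * (a * τ * b) :=
    mul_le_mul_of_nonneg_right (by linarith) (by positivity)
  have c2 : b ^ 2 * (100 * b) ≤ b ^ 2 * (γ ^ 3 * (a * τ * b)) := by
    rw [← hτ] at c1 ⊢
    linarith
  have c3 := le_of_mul_le_mul_left c2 (pow_pos hb 2)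
  have c4 := mul_le_mul_of_nonneg_right k3.1 (show 0 ≤ γ ^ 3 * (a * τ * b) by positivity)
  rw [hNd]
  linarith

end Pool.Agent.MP_66a317_pr.Drop
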