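import Pool.Agent.MP_66a317_pr.Drop.Slab

open MeasureTheory Set Filter
open scoped ENNReal

namespace Pool.Agent.MP_66a317_pr.Drop

theorem un1 {γ w c n W N : ℝ} (hγ : 0 < γ) (hγ1 : γ ≤ 1 / 10) (hw : 1 - γ ≤ w) (hn : 1 ≤ n)
    (hc : 46 * n ≤ γ * c) (hW : 1 ≤ W) (hN : 0 < N) (e : W = (1 - γ) ^ 2 * N) :
    (4 + 2 * (c * W + W) / w + (n * (20 * W) + 22 * W)) / (c * W * (2 * W)) ≤ (1 + 6 * γ) / N := by
  have hu : 0 < 1 - γ := by linarith
  have c0 : 0 < c := (mul_pos_iff_of_pos_left hγ).1 (by linarith)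
  have W0 : 0 < W := by linarith
  have a1 : c * W + W ≤ (1 + γ) * (c * W) := by
    linarith [mul_le_mul_of_nonneg_right (show 1 ≤ γ * c by linarith) W0.le]
  have a2 : 2 * (c * W + W) / w ≤ 2 * ((1 + 23 / 10 * γ) * (c * W)) := by
    rw [div_le_iff₀ (by linarith)]
    have a3 : 1 + γ ≤ (1 + 23 / 10 * γ) * (1 - γ) := by nlinarith
    have a4 : (1 + γ) * (c * W) ≤ (1 + 23 / 10 * γ) * w * (c * W) := by
      gcongr
      exact a3.trans (by gcongr)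
    linarith
  have a5 := mul_le_mul_of_nonneg_right hc W0.le
  have a6 := mul_le_mul_of_nonneg_right hn W0.le
  calc _ ≤ (2 * (1 + 28 / 10 * γ) * (c * W)) / (c * W * (2 * W)) :=
        div_le_div_of_nonneg_right (by linarith) (by positivity)
    _ = (1 + 28 / 10 * γ) / ((1 - γ) ^ 2 * N) := by
        rw [← e]
        field_simp
    _ ≤ _ := by
        rw [div_le_div_iff₀ (by positivity) hN, ← mul_assoc]
        gcongr
        nlinarith [mul_pos hγ (mul_pos hγ hγ)]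

theorem up_drop {a b γ k τ : ℝ} (m : ℕ) (hγ : 0 < γ) (hγ1 : γ ≤ 1 / 10) (hb : 0 < b)
    (k0 : 0 < k) (k2 : k ^ 2 = 2 / 3) (hτ : a ^ 2 * τ = b ^ 2) (hab : a ^ 2 ≤ b ^ 2)
    (hN : 2 ≤ k ^ 3 * b * τ) (hm : 46 * ((m + 1 : ℕ) : ℝ) ≤ γ * 2 ^ (m + 1))
    (hc : (2 ^ (m + 1) + 2) * b ≤ γ / 2) :
    value (1 - b ^ 2) (1 - a ^ 2) (-1) ≤ ENNReal.ofReal ((1 + 6 * γ) / (k ^ 3 * b * τ)) := by
  have hu : 9 / 10 ≤ 1 - γ := by linarith
  have hu1 : 1 - γ ≤ 1 := by linarith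
  have c0 : (0 : ℝ) < 2 ^ (m + 1) := by positivity
  have k1 : k ≤ 1 := le_of_sq_le_sq (by linarith) zero_le_one
  have τ0 : 0 < τ := (mul_pos_iff_of_pos_left (show 0 < k ^ 3 * b by positivity)).1 (by linarith)
  have b1 : b ≤ γ / 4 := by linarith [mul_pos c0 hb]
  have b2 : b ^ 2 ≤ γ / 4 * (1 / 40) := by
    rw [sq]
    exact mul_le_mul b1 (by linarith) hb.le (by positivity)
  have hW : 1 ≤ (1 - γ) ^ 2 * (k ^ 3 * b * τ) :=
    le_trans (by norm_num) (mul_le_mul (pow_le_pow_left₀ (by norm_num) hu 2) hN zero_le_two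
      (by positivity))
  have T0 : 0 < k ^ 2 * τ := by positivity
  have w1 : (1 - γ) ^ 2 * (k ^ 3 * b * τ) ≤ b * (k ^ 2 * τ) := by
    calc _ = (1 - γ) ^ 2 * k * (b * (k ^ 2 * τ)) := by ring
      _ ≤ 1 ^ 2 * 1 * (b * (k ^ 2 * τ)) := by gcongr
      _ = _ := by ring
  have w2 : (2 ^ (m + 1) + 2) * ((1 - γ) ^ 2 * (k ^ 3 * b * τ)) ≤ γ / 2 * (k ^ 2 * τ) := by
    calc _ ≤ (2 ^ (m + 1) + 2) * (b * (k ^ 2 * τ)) := by gcongr
      _ = (2 ^ (m + 1) + 2) * b * (k ^ 2 * τ) := by ring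
      _ ≤ _ := by gcongr
  have w3 : a ^ 2 * (k ^ 2 * τ) ≤ γ / 2 * (k ^ 2 * τ) := by gcongr; linarith
  have w4 : γ * (k ^ 2 * τ) ≤ 1 / 10 * (k ^ 2 * τ) := by gcongr
  have hγb : 0 < γ * b ^ 2 := by positivity
  have g1 : γ * b ^ 2 ≤ 1 / 10 * b ^ 2 := by gcongr
  have α1 : (1 - γ) ^ 2 * (2 / 3 * b ^ 2) ≤ 1 ^ 2 * (2 / 3 * b ^ 2) := by gcongr
  have h := up_slab (r := 1 - b ^ 2) (r' := 1 - b ^ 2 + γ * b ^ 2 / 4) (w := 1 - a ^ 2)
    (T := k ^ 2 * τ) (W := (1 - γ) ^ 2 * (k ^ 3 * b * τ)) (α := (1 - γ) ^ 2 * (2 / 3 * b ^ 2)) m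
    (by linarith) (by linarith) (by linarith [sq_nonneg b]) (by linarith)
    (by linarith [sq_nonneg a]) hW (by linarith) (by positivity) (by linarith)
    (by
      calc _ = (1 - γ) ^ 2 * (2 / 3 * b ^ 2) * ((1 - γ) * (k ^ 2 * τ)) ^ 2 := by
            rw [← k2]
            ring
        _ ≤ _ := by
            gcongr
            linarith [mul_pos hγ T0])
    (by
      have e : (1 - (1 - a ^ 2)) * (k ^ 2 * τ) = 2 / 3 * b ^ 2 := by
        rw [k2, ← hτ]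
        ring
      have a1 : ((1 - γ) ^ 2 * (2 / 3 * b ^ 2)) ^ 2 ≤ b ^ 2 * (γ / 4 * (1 / 40)) := by
        rw [sq]
        exact mul_le_mul (by linarith [sq_nonneg b]) (by linarith [sq_nonneg b]) (by positivity)
          (by positivity)
      have a2 := mul_le_mul_of_nonneg_right hγ1 hγb.le
      rw [e]
      linarith)
  exact h.trans (ENNReal.ofReal_le_ofReal (un1 hγ hγ1 (by linarith)
    (by exact_mod_cast Nat.succ_pos m) hm hW (by linarith) rfl))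

end Pool.Agent.MP_66a317_pr.Drop
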