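import Pool.Agent.MP_66a317_pr.Drop.LowNum
import Pool.Agent.MP_66a317_pr.Drop.UpNum

open MeasureTheory Set Filter
open scoped ENNReal

namespace Pool.Agent.MP_66a317_pr.Drop

open Fast All

theorem drop_ab {γ : ℝ} (hγ : 0 < γ) (hγ1 : γ ≤ 1 / 10) : ∃ θ : ℝ, 0 < θ ∧ θ ≤ 1 ∧
    ∀ a b : ℝ, 0 < a → 0 < b → b ≤ θ → a ≤ θ * b ^ 2 →
    |(value (1 - b ^ 2) (1 - a ^ 2) (-1)).toReal / (a ^ 2 * √(3 / (2 * b ^ 2)) ^ 3) - 1| ≤
      14 * γ := by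
  obtain ⟨n, hn⟩ := eventually_atTop.1 ((tendsto_pow_const_div_const_pow_of_one_lt 1
    (show (1 : ℝ) < 2 by norm_num)).eventually (gt_mem_nhds (show 0 < γ / 46 by positivity)))
  have hm := (div_lt_iff₀ (by positivity)).1 (hn (n + 1) (Nat.le_succ n))
  rw [pow_one] at hm
  have g3 : γ ^ 3 ≤ 1 := pow_le_one₀ hγ.le (by linarith)
  refine ⟨min (γ ^ 3 / 100) (γ / 2 / (2 ^ (n + 1) + 2)), by positivity,
    (min_le_left _ _).trans (by linarith), fun a b ha hb h1 h2 => ?_⟩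
  have h3 := h1.trans (min_le_left _ _)
  have h4 := (le_div_iff₀' (by positivity)).1 (h1.trans (min_le_right _ _))
  have h5 := h2.trans (mul_le_mul_of_nonneg_right (min_le_left _ _) (sq_nonneg b))
  obtain ⟨k, k0, k2⟩ : ∃ k : ℝ, 0 < k ∧ k ^ 2 = 2 / 3 :=
    ⟨√(2 / 3), by positivity, Real.sq_sqrt (by norm_num)⟩
  have hτ : a ^ 2 * (b ^ 2 / a ^ 2) = b ^ 2 := by field_simp
  have e1 : √(3 / (2 * b ^ 2)) = 1 / (k * b) := by
    rw [Real.sqrt_eq_iff_eq_sq (by positivity) (by positivity), div_pow, mul_pow, k2]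
    field_simp
  have b1 : b ^ 2 ≤ 1 / 100 * b := by
    rw [sq]
    gcongr
    linarith
  have a1 : a ≤ 1 / 100 * b ^ 2 := h5.trans (by gcongr)
  have a2 : a ^ 2 ≤ b ^ 2 := by gcongr; linarith
  have k3 : 1 / 2 ≤ k ^ 3 := by
    have a1 : 4 / 5 ≤ k := le_of_sq_le_sq (by linarith) k0.le
    rw [pow_succ, k2]
    linarith
  have hN : 2 ≤ k ^ 3 * b * (b ^ 2 / a ^ 2) := by
    rw [← mul_div_assoc, le_div_iff₀ (by positivity)]
    calc 2 * a ^ 2 ≤ 2 * (1 / 100 * b ^ 2 * (1 / 100 * (1 / 100 * b))) := by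
          rw [sq a]
          gcongr
          linarith
      _ = 2 / 1000000 * b * b ^ 2 := by ring
      _ ≤ _ := by gcongr; linarith
  have hw : 0 ≤ 1 - a ^ 2 := by linarith
  have hl := (ENNReal.ofReal_le_iff_le_toReal (ne_top_of_le_ne_top ENNReal.one_ne_top
    (value_le_one' _ hw _))).1 (low_drop hγ hγ1 ha hb k0 k2 hτ h3 h5)
  have hu := ENNReal.toReal_le_of_le_ofReal (by positivity)
    (up_drop n hγ hγ1 hb k0 k2 hτ a2 hN (by linarith) h4)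
  have e2 : a ^ 2 * (1 / (k * b)) ^ 3 = (k ^ 3 * b * (b ^ 2 / a ^ 2))⁻¹ := by field_simp
  rw [div_le_iff₀ (by positivity)] at hl
  rw [le_div_iff₀ (by positivity)] at hu
  rw [e1, e2, div_inv_eq_mul, abs_le]
  constructor <;> linarith

theorem drop_all (η : ℝ) (hη : 0 < η) : ∃ θ : ℝ, 0 < θ ∧ ∀ (r w : ℝ) (A : ℂ), 0 < r → r < ‖A‖ →
    w < 1 → 1 - r / ‖A‖ ≤ θ → √(1 - w) ≤ θ * (1 - r / ‖A‖) →
      |(value r w A).toReal / ((1 - w) * √(3 / (2 * (1 - r / ‖A‖))) ^ 3) - 1| ≤ η := by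
  obtain ⟨θ, θ0, θ1, h⟩ := drop_ab (γ := min η 1 / 14) (by positivity)
    (by linarith [min_le_right η 1])
  refine ⟨θ ^ 2, by positivity, fun r w A hr hA hw1 h1 h2 => ?_⟩
  have hR : 0 < ‖A‖ := hr.trans hA
  have hδ : 0 < 1 - r / ‖A‖ := sub_pos.2 ((div_lt_one hR).2 hA)
  have hε : 0 < 1 - w := by linarith
  have h3 := h √(1 - w) √(1 - r / ‖A‖) (Real.sqrt_pos.2 hε) (Real.sqrt_pos.2 hδ)
    (Real.sqrt_le_iff.2 ⟨θ0.le, h1⟩)
  rw [Real.sq_sqrt hε.le, Real.sq_sqrt hδ.le, sub_sub_cancel, sub_sub_cancel] at h3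
  rw [scale_stmt.1 r w A (norm_pos_iff.1 hR)]
  refine (h3 (h2.trans ?_)).trans (by linarith [min_le_left η 1])
  gcongr
  nlinarith

end Pool.Agent.MP_66a317_pr.Drop
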