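import Pool.Agent.MP_66a317_pr.All.Rel
import Pool.Agent.MP_66a317_pr.Drop.Main

open MeasureTheory Set Filter
open scoped ENNReal

namespace Pool.Agent.MP_66a317_pr.Drop

open Fast Stair All

theorem rel_ab2 {γ : ℝ} (hγ : 0 < γ) (hγ1 : γ ≤ 1 / 10) : ∃ l0 : ℝ, ∀ a b l' : ℝ, 0 < a → a < 1 →
    0 < b → b < 1 → l0 ≤ Real.log (a / b ^ 2) → Real.log (a / b ^ 2) ≤ l' →
    l' ≤ Real.log (a / b ^ 2) + 4 →
    |(value (1 - b ^ 2) (1 - a ^ 2) (-1)).toReal / (1 - ∏' k : ℕ,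
      (1 - min 1 (lev (2 * l') k * (a / b)) / 2)) - 1| ≤ 30 * γ := by
  have g4 : 0 < γ ^ 4 := by positivity
  have g3 : 0 < γ ^ 3 := by positivity
  have g31 : γ ^ 3 ≤ (1 / 10) ^ 3 := by gcongr
  have g41 : γ ^ 4 ≤ γ := by nlinarith
  obtain ⟨d, hd, hF⟩ := stair_all (γ ^ 4) g4
  obtain ⟨m, hm⟩ := exists_pow_lt_of_lt_one hγ (show (1 / 2 : ℝ) < 1 by norm_num)
  have e1 : ∀ᶠ L : ℝ in atTop, 0 ≤ L ∧ (∀ j ∈ Finset.range m, 1 ≤ lev L j) ∧
      lev L (0 + 1) ≤ γ * lev L 0 := (eventually_ge_atTop 0).and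
    (((eventually_all_finset _).2 fun j _ => (lev_stmt.1 j).eventually_ge_atTop 1).and
      (lev_stmt.2.2.2.2 0 γ hγ))
  obtain ⟨L0, hL0⟩ := eventually_atTop.1 e1
  have e2 : ∀ᶠ l : ℝ in atTop, L0 ≤ l ∧ 1 ≤ l ∧ 120 ≤ γ ^ 4 * l ∧ Real.exp (-l) < d ∧
      ‖Real.log (l / γ ^ 3)‖ ≤ γ ^ 7 / 2 * ‖id (l / γ ^ 3)‖ :=
    (eventually_ge_atTop _).and ((eventually_ge_atTop _).and
      (((tendsto_id.const_mul_atTop g4).eventually_ge_atTop _).and
      ((Real.tendsto_exp_neg_atTop_nhds_zero.eventually (gt_mem_nhds hd)).and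
      ((tendsto_id.atTop_div_const g3).eventually
        (Real.isLittleO_log_id_atTop.bound (by positivity))))))
  obtain ⟨l0, hl0⟩ := eventually_atTop.1 e2
  refine ⟨l0, fun a b l' ha ha1 hb hb1 hl m1 m2 => ?_⟩
  obtain ⟨c1, c2, c6, c4, c5⟩ := hl0 _ hl
  have c3 : 120 ≤ γ ^ 3 * Real.log (a / b ^ 2) := by
    linarith [mul_le_mul_of_nonneg_right hγ1 (show 0 ≤ γ ^ 3 * Real.log (a / b ^ 2) by positivity)]
  have hx : 0 < a / b ^ 2 := by positivity
  have ex := Real.exp_log hx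
  have hs : 0 < a / b := by positivity
  have a2 : a ^ 2 < 1 := by nlinarith
  have b2 : b ^ 2 < 1 := by nlinarith
  have hfin : ∀ w, 0 ≤ w → value (1 - b ^ 2) w (-1) ≠ ⊤ := fun w hw =>
    ne_top_of_le_ne_top ENNReal.one_ne_top (value_le_one' _ hw _)
  have hP1 : (value (1 - b ^ 2) (1 - a ^ 2) (-1)).toReal ≤ 1 :=
    ENNReal.toReal_le_of_le_ofReal zero_le_one (by simpa using value_le_one' _ (by linarith) _)
  have hlow := fun h => (ENNReal.ofReal_le_iff_le_toReal (hfin _ (by linarith))).1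
    (low_rel hγ hγ1 ha hb ha1.le c3 h)
  have hup := fun h => ENNReal.toReal_le_of_le_ofReal (by positivity)
    (up_rel hγ hγ1 ha hb ha1.le c3 h)
  have hF' : ∀ w, 1 - d < w → w < 1 → |(value (1 - b ^ 2) w (-1)).toReal - (1 - ∏' k : ℕ,
      (1 - min 1 (lev (Real.log (1 / (1 - w))) k * √((1 - w) / b ^ 2)) / 2))| ≤ γ ^ 4 :=
    fun w h1 h2 => by
      have h3 := hF (1 - b ^ 2) w (-1) (by linarith) (by simp; positivity) h1 h2
      rwa [norm_neg, norm_one, div_one, sub_sub_cancel] at h3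
  set l := Real.log (a / b ^ 2) with hldef
  have hb2 : b ^ 2 ≤ Real.exp (-l) := by
    rw [Real.exp_neg, ex, inv_div, le_div_iff₀ ha]
    nlinarith [sq_nonneg b]
  have facts : ∀ L s : ℝ, 0 ≤ L → 0 ≤ s → (∀ j, 0 ≤ lev L j * s) ∧
      (∀ j, lev L (j + 1) * s ≤ lev L j * s / 2) ∧ ∃ n, ∀ j, n ≤ j → lev L j * s = 0 :=
    fun L s hL hs => ⟨fun j => mul_nonneg (lev_stmt.2.2.1 L j hL).1 hs, fun j => by
      linarith [mul_le_mul_of_nonneg_right (lev_stmt.2.2.1 L j hL).2.2 hs], by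
      obtain ⟨n, hn⟩ := lev_stmt.2.2.2.1 L
      exact ⟨n, fun j hj => by rw [hn j hj, zero_mul]⟩⟩
  obtain ⟨f0, f1, n, f2⟩ := facts (2 * l') (a / b) (by linarith) hs.le
  obtain ⟨-, k1, k2⟩ := hL0 (2 * l') (by linarith)
  have t0 : lev (2 * l') 0 * (a / b) = a / b * l' := by
    rw [lev]
    ring
  have m3 : a / b * l ≤ a / b * l' := by gcongr
  have m4 : a / b * l' ≤ a / b * ((1 + γ) * l) := by
    gcongr
    linarith [mul_le_mul_of_nonneg_right g41 (show 0 ≤ l by linarith)]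
  have m5 := mul_le_mul_of_nonneg_right hγ1 (show 0 ≤ a / b * l by positivity)
  set Q := ∏' k : ℕ, (1 - min 1 (lev (2 * l') k * (a / b)) / 2) with hQ
  set P := (value (1 - b ^ 2) (1 - a ^ 2) (-1)).toReal with hP
  suffices h : 0 < 1 - Q ∧ |P - (1 - Q)| ≤ 30 * γ * (1 - Q) by
    rw [div_sub_one h.1.ne', abs_div, abs_of_pos h.1, div_le_iff₀ h.1]
    exact h.2
  rw [abs_le]
  rcases le_total (a / b * l) (γ ^ 3) with h3 | h3
  · obtain ⟨p1, p2⟩ := prodB_Main _ f0 f1 n f2 0 (fun j hj => absurd hj (by omega))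
      (by rw [t0]; linarith)
    have p3 := mul_le_mul_of_nonneg_right k2 hs.le
    rw [mul_assoc, t0] at p3
    rw [pow_zero, one_mul, t0, ← hQ] at p1 p2
    have hΨ : 0 < a / b * l := by positivity
    have p4 := hlow h3
    have p5 := hup h3
    have p6 := mul_le_mul_of_nonneg_left (show a / b * l / 2 ≤ 1 - Q by linarith) hγ.le
    have p7 : 0 < γ * (a / b * l) := by positivity
    have p8 := mul_le_mul_of_nonneg_left m4 hγ.le
    have p9 := mul_le_mul_of_nonneg_left m5 hγ.le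
    refine ⟨by linarith, by linarith, by linarith⟩
  rcases le_total 1 (a / b) with h1 | h1
  · obtain ⟨p1, p2⟩ := prodA_Main _ f0 f1 n f2 m fun j hj =>
      one_le_mul_of_one_le_of_one_le (k1 j (Finset.mem_range.2 hj)) h1
    have hba : b ^ 2 ≤ a ^ 2 := by
      gcongr
      exact (one_le_div hb).1 h1
    have q1 := hF' (1 - b ^ 2) (by linarith) (by linarith [pow_pos hb 2])
    rw [sub_sub_cancel, div_self (by positivity), Real.sqrt_one] at q1
    have q2 : l ≤ Real.log (1 / b ^ 2) := Real.log_le_log hx (by gcongr)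
    obtain ⟨q3, q4, -⟩ := hL0 _ (c1.trans q2)
    obtain ⟨u0, u1, n', u2⟩ := facts _ 1 q3 zero_le_one
    obtain ⟨-, q5⟩ := prodA_Main _ u0 u1 n' u2 m fun j hj => by
      rw [mul_one]
      exact q4 j (Finset.mem_range.2 hj)
    have q6 := ENNReal.toReal_mono (hfin _ (by linarith))
      (value_anti (1 - b ^ 2) (show 1 - a ^ 2 ≤ 1 - b ^ 2 by linarith) (-1))
    obtain ⟨q7, -⟩ := abs_le.1 q1
    rw [← hQ] at p1 p2
    rw [← hP] at q6
    have p6 := mul_le_mul_of_nonneg_left (show 1 / 2 ≤ 1 - Q by linarith) hγ.le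
    refine ⟨by linarith, by linarith, by linarith⟩
  have hab : a ≤ b := (div_le_one hb).1 h1
  have hab2 : a ^ 2 ≤ b ^ 2 := by gcongr
  have q1 := hF' (1 - a ^ 2) (by linarith) (by linarith [pow_pos ha 2])
  rw [sub_sub_cancel, ← div_pow, Real.sqrt_sq hs.le, ← hP] at q1
  have eL : Real.log (1 / a ^ 2) = 2 * l - 4 * Real.log (a / b) := by
    rw [hldef, Real.log_div one_ne_zero (by positivity), Real.log_div ha.ne' (by positivity),
      Real.log_div ha.ne' hb.ne', Real.log_pow, Real.log_pow, Real.log_one]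
    push_cast
    ring
  have r1 : Real.log (a / b) ≤ 0 := Real.log_nonpos hs.le h1
  have r2 : -Real.log (a / b) ≤ γ ^ 4 * l / 2 := by
    have r3 : (a / b)⁻¹ ≤ l / γ ^ 3 := by
      rw [inv_le_iff_one_le_mul₀' hs, ← mul_div_assoc, one_le_div g3]
      exact h3
    rw [← Real.log_inv]
    refine (Real.log_le_log (by positivity) r3).trans ((le_abs_self _).trans (c5.trans_eq ?_))
    rw [id, Real.norm_of_nonneg (by positivity)]
    field_simp
  have q2 := stair_cmp (L := Real.log (1 / a ^ 2)) (L' := 2 * l) g4.le (by linarith) (by linarith)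
    (by linarith) (by
      have r3 := mul_le_mul_of_nonneg_left r2 (show 0 ≤ 1 - γ ^ 4 by linarith)
      have r4 : 0 ≤ γ ^ 4 * γ ^ 4 * l := by positivity
      rw [eL]
      linarith) hs.le h1
  have q8 := stair_cmp (L := 2 * l') (L' := 2 * l) g4.le (by linarith) (by linarith)
    (by linarith) (by
      linarith [mul_le_mul_of_nonneg_left m1 g4.le]) hs.le h1
  rw [← hQ] at q8
  obtain ⟨q9, q10⟩ := abs_le.1 q8
  have q3 : γ ^ 3 / 2 ≤ 1 - Q := by
    rcases le_total (a / b * l') 1 with h4 | h4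
    · obtain ⟨-, p2⟩ := prodB_Main _ f0 f1 n f2 0 (fun j hj => absurd hj (by omega))
        (by rw [t0]; linarith)
      rw [pow_zero, one_mul, t0, ← hQ] at p2
      linarith
    · obtain ⟨-, p2⟩ := prodA_Main _ f0 f1 n f2 1 fun j hj => by
        rw [show j = 0 by omega, t0]
        exact h4
      rw [← hQ] at p2
      linarith
  obtain ⟨q4, q5⟩ := abs_le.1 q1
  obtain ⟨q6, q7⟩ := abs_le.1 q2
  have p6 := mul_le_mul_of_nonneg_left q3 hγ.le
  refine ⟨by linarith, by linarith, by linarith⟩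

theorem small_G {y s : ℝ} (hy : 0 < y) (hy1 : y ≤ 1) (hs : 0 < s) (hs1 : s ≤ 1) :
    1 - ∏' k : ℕ, (1 - min 1 (lev (2 * y) k * s) / 2) = y * s / 2 := by
  have h0 : lev (2 * y) 0 = y := by
    rw [lev]
    ring
  have h1 : ∀ k, lev (2 * y) (k + 1) = 0 := fun k => by
    induction k with
    | zero => rw [lev, h0, posLog_zero_LevFacts hy.le hy1, Real.posLog_zero]
    | succ k ih => rw [lev, ih, Real.posLog_zero, Real.posLog_zero]
  rw [tprod_eq_mulSingle 0 fun k hk => by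
    obtain ⟨j, rfl⟩ := Nat.exists_eq_succ_of_ne_zero hk
    simp [h1], h0, min_eq_right (mul_le_one₀ hy1 hs.le hs1)]
  ring

theorem both_ab {γ : ℝ} (hγ : 0 < γ) (hγ1 : γ ≤ 1 / 10) : ∃ K : ℝ, ∀ a b : ℝ, 0 < a → a < 1 →
    0 < b → b < 1 → K * b ^ 2 ≤ 1 → K ≤ |Real.log (a / b ^ 2)| →
    |(value (1 - b ^ 2) (1 - a ^ 2) (-1)).toReal / (1 - ∏' k : ℕ, (1 - min 1
      (lev (2 * Real.log (1 + 3 * √(3 / 2) * (a / b ^ 2))) k * (a / b)) / 2)) - 1| ≤ 30 * γ := by
  obtain ⟨l0, hl0⟩ := rel_ab2 hγ hγ1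
  obtain ⟨θ, θ0, θ1, hθ⟩ := drop_ab hγ hγ1
  have c1 : 1 ≤ √(3 / 2 : ℝ) := Real.one_le_sqrt.2 (by norm_num)
  have c2 : √(3 / 2 : ℝ) ≤ 4 / 3 := Real.sqrt_le_iff.2 ⟨by norm_num, by norm_num⟩
  have c3 : √(3 / 2 : ℝ) ^ 2 = 3 / 2 := Real.sq_sqrt (by norm_num)
  have μ0 : 0 < min θ (γ / 4) := by positivity
  refine ⟨max (max l0 0) (max (1 / θ ^ 2) (-Real.log (min θ (γ / 4)))),
    fun a b ha ha1 hb hb1 h1 h2 => ?_⟩
  have hx : 0 < a / b ^ 2 := by positivity
  have x1 := mul_le_mul_of_nonneg_right c1 hx.le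
  have x2 := mul_le_mul_of_nonneg_right c2 hx.le
  rcases le_total 0 (Real.log (a / b ^ 2)) with h0 | h0
  · rw [abs_of_nonneg h0] at h2
    have x3 : 1 ≤ a / b ^ 2 := (Real.log_nonneg_iff hx).1 h0
    refine hl0 a b _ ha ha1 hb hb1 (((le_max_left _ _).trans (le_max_left _ _)).trans h2)
      (Real.log_le_log hx (by linarith)) ?_
    calc _ ≤ Real.log (a / b ^ 2 * 5) := Real.log_le_log (by positivity) (by linarith)
      _ ≤ _ := by
        rw [Real.log_mul hx.ne' (by norm_num)]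
        linarith [Real.log_le_sub_one_of_pos (show (0 : ℝ) < 5 by norm_num)]
  rw [abs_of_nonpos h0] at h2
  have x3 : a / b ^ 2 ≤ min θ (γ / 4) := (Real.log_le_log_iff hx μ0).1 (by
    linarith [((le_max_right _ _).trans (le_max_right _ _)).trans h2])
  have x4 := x3.trans (min_le_left _ _)
  have x5 := x3.trans (min_le_right _ _)
  have b1 : b ≤ θ := by
    have h3 := (mul_le_mul_of_nonneg_right ((le_max_left _ _).trans (le_max_right _ _))
      (sq_nonneg b)).trans h1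
    rw [one_div, inv_mul_le_iff₀ (by positivity), mul_one] at h3
    exact le_of_sq_le_sq h3 θ0.le
  have h := hθ a b ha hb b1 ((div_le_iff₀ (by positivity)).1 x4)
  have hs : 0 < a / b := by positivity
  have hs1 : a / b ≤ a / b ^ 2 := div_le_div_of_nonneg_left ha.le (by positivity) (by nlinarith)
  set y := 3 * √(3 / 2) * (a / b ^ 2) with hy
  have y0 : 0 < y := by positivity
  have y1 : y ≤ γ := by linarith
  have L0 : 0 < Real.log (1 + y) := Real.log_pos (by linarith)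
  have L1 : Real.log (1 + y) ≤ y := by
    linarith [Real.log_le_sub_one_of_pos (show 0 < 1 + y by linarith)]
  have L2 : y ≤ (1 + γ) * Real.log (1 + y) := by
    have h := mul_le_mul_of_nonneg_left
      (Real.one_sub_inv_le_log_of_pos (show 0 < 1 + y by linarith)) (show 0 ≤ 1 + y by linarith)
    rw [mul_sub, mul_inv_cancel₀ (by linarith)] at h
    linarith [mul_le_mul_of_nonneg_right y1 L0.le]
  have e : a ^ 2 * √(3 / (2 * b ^ 2)) ^ 3 = y * (a / b) / 2 := by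
    rw [← div_div, Real.sqrt_div' _ (sq_nonneg b), Real.sqrt_sq hb.le, div_pow,
      pow_succ √(3 / 2 : ℝ) 2, c3, hy]
    field_simp
  rw [small_G L0 (by linarith) hs (by linarith), div_sub_one (by positivity), abs_div,
    abs_of_pos (a := _ / 2) (by positivity), div_le_iff₀ (by positivity), abs_le]
  rw [e, div_sub_one (by positivity), abs_div, abs_of_pos (a := _ / 2) (by positivity),
    div_le_iff₀ (by positivity), abs_le] at h
  have d1 := mul_le_mul_of_nonneg_right L1 hs.le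
  have d2 := mul_le_mul_of_nonneg_right L2 hs.le
  have d3 := mul_le_mul_of_nonneg_left d2 hγ.le
  have d4 : 0 ≤ γ * (Real.log (1 + y) * (a / b)) := by positivity
  have d5 := mul_le_mul_of_nonneg_right hγ1 d4
  constructor <;> linarith [h.1, h.2]

theorem near_all (η : ℝ) (hη : 0 < η) : ∃ K : ℝ, ∀ (r w : ℝ) (A : ℂ), 0 < r → r < ‖A‖ → 0 < w →
    w < 1 → K * (1 - r / ‖A‖) ≤ 1 → K ≤ |Real.log (√(1 - w) / (1 - r / ‖A‖))| →
      |(value r w A).toReal / (1 - ∏' k : ℕ, (1 - min 1 (lev (2 * Real.log (1 + 3 * √(3 / 2) *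
        (√(1 - w) / (1 - r / ‖A‖)))) k * √((1 - w) / (1 - r / ‖A‖))) / 2)) - 1| ≤ η := by
  obtain ⟨K, h⟩ := both_ab (γ := min η 1 / 30) (by positivity) (by linarith [min_le_right η 1])
  refine ⟨K, fun r w A hr hA hw hw1 h2 h3 => ?_⟩
  have hR : 0 < ‖A‖ := hr.trans hA
  have hρ : 0 < r / ‖A‖ := by positivity
  have hδ : 0 < 1 - r / ‖A‖ := sub_pos.2 ((div_lt_one hR).2 hA)
  have hε : 0 < 1 - w := by linarith
  have h1 := h √(1 - w) √(1 - r / ‖A‖) (Real.sqrt_pos.2 hε)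
    ((Real.sqrt_lt' one_pos).2 (by linarith)) (Real.sqrt_pos.2 hδ)
    ((Real.sqrt_lt' one_pos).2 (by linarith))
  rw [Real.sq_sqrt hε.le, Real.sq_sqrt hδ.le, ← Real.sqrt_div hε.le, sub_sub_cancel,
    sub_sub_cancel] at h1
  rw [scale_stmt.1 r w A (norm_pos_iff.1 hR)]
  exact (h1 h2 h3).trans (by linarith [min_le_left η 1])

end Pool.Agent.MP_66a317_pr.Drop
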