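import Pool.Agent.MP_66a317_pr.Drop.Tube
import Pool.Agent.Mg.F66a317.Gc08609

open MeasureTheory Metric Set
open scoped NNReal ENNReal

namespace Pool.Agent.MP_66a317_pr.Drop

open Fast

/-- length of the backward run that ends at `p` -/
noncomputable def sl (M : ℝ) (p : ℂ) : ℝ := (M ^ 2 - ‖p‖ ^ 2) / (2 * (p.re + M))

theorem sl_facts {M : ℝ} {p : ℂ} (hM : 0 < M) (h0 : 0 ≤ p.re) (h1 : ‖p‖ ≤ M) :
    0 ≤ sl M p ∧ sl M p ≤ (M - p.re) / 2 ∧ ‖p + (sl M p : ℂ)‖ = M - sl M p := by
  have a0 : 0 < 2 * (p.re + M) := by positivity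
  have a1 : p.re ≤ ‖p‖ := Complex.re_le_norm p
  have a2 : sl M p ≤ (M - p.re) / 2 := by
    rw [sl, div_le_iff₀ a0]
    nlinarith
  refine ⟨div_nonneg (by nlinarith [norm_nonneg p]) a0.le, a2, ?_⟩
  have a3 : sl M p * (2 * (p.re + M)) = M ^ 2 - ‖p‖ ^ 2 := div_mul_cancel₀ _ a0.ne'
  rw [← sq_eq_sq₀ (norm_nonneg _) (by linarith), Complex.sq_norm, Complex.normSq_apply]
  rw [Complex.sq_norm, Complex.normSq_apply] at a3
  simp only [Complex.add_re, Complex.add_im, Complex.ofReal_re, Complex.ofReal_im]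
  linarith

/-- run along a ray, fall back, spread sideways, expand -/
noncomputable def hp (w T W T2 T3 c : ℝ) (c0 p : ℂ) (t : ℝ) : ℂ :=
  ((min t (T - sl (w * T) p / w) / (T - sl (w * T) p / w) : ℝ) : ℂ) * (p + sl (w * T) p) -
    ((w * (min (max t (T - sl (w * T) p / w)) T - (T - sl (w * T) p / w)) : ℝ) : ℂ) +
    ((w / W * (min (max t T) T2 - T) * p.im : ℝ) : ℂ) * Complex.I +
    (((max t T2 - T2) / T3 : ℝ) : ℂ) * (str c p - c0)

theorem hp_lip {w T W T2 T3 c : ℝ} {c0 p : ℂ} (hw : 0 < w) (hW : 0 < W) (h3 : 0 < T3)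
    (hu0 : 0 < T - sl (w * T) p / w) (hs : 0 ≤ sl (w * T) p) (hT : T ≤ T2)
    (hn : ‖p + (sl (w * T) p : ℂ)‖ = w * T - sl (w * T) p) (hi : |p.im| ≤ W)
    (hc : ‖str c p - c0‖ ≤ w * T3) :
    hp w T W T2 T3 c c0 p 0 = 0 ∧ ∀ s t : ℝ, 0 ≤ s → 0 ≤ t →
      dist (hp w T W T2 T3 c c0 p s) (hp w T W T2 T3 c c0 p t) ≤ w * |s - t| := by
  unfold hp
  have hn' : ‖p + (sl (w * T) p : ℂ)‖ = w * (T - sl (w * T) p / w) := by
    rw [hn]
    field_simp
  have hu : T - sl (w * T) p / w ≤ T := sub_le_self _ (by positivity)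
  generalize T - sl (w * T) p / w = u at *
  generalize p + (sl (w * T) p : ℂ) = Q at *
  have hT0 : 0 ≤ T := by linarith
  refine ⟨by simp [hu0.le, hu, hT0, hT, hT0.trans hT], fun s t _ _ => ?_⟩
  have c1 := abs_min_add_abs_max s t u
  have c2 := abs_min_add_abs_max (max s u) (max t u) T
  have c3 := abs_min_add_abs_max (max s T) (max t T) T2
  rw [max_assoc, max_assoc, max_eq_right hu] at c2
  rw [max_assoc, max_assoc, max_eq_right hT] at c3
  have e : ∀ a1 a2 a3 a4 b1 b2 b3 b4 : ℝ,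
      ((a1 / u : ℝ) : ℂ) * Q - ((w * (a2 - u) : ℝ) : ℂ) +
        ((w / W * (a3 - T) * p.im : ℝ) : ℂ) * Complex.I + (((a4 - T2) / T3 : ℝ) : ℂ) * (str c p - c0) -
      (((b1 / u : ℝ) : ℂ) * Q - ((w * (b2 - u) : ℝ) : ℂ) +
        ((w / W * (b3 - T) * p.im : ℝ) : ℂ) * Complex.I +
        (((b4 - T2) / T3 : ℝ) : ℂ) * (str c p - c0)) =
      (((a1 - b1) / u : ℝ) : ℂ) * Q - ((w * (a2 - b2) : ℝ) : ℂ) +
        (((a3 - b3) * (w / W * p.im) : ℝ) : ℂ) * Complex.I +
        (((a4 - b4) / T3 : ℝ) : ℂ) * (str c p - c0) := fun _ _ _ _ _ _ _ _ => by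
    push_cast
    ring
  rw [Complex.dist_eq, e]
  refine (norm_add_le_of_le (norm_add_le_of_le (norm_sub_le _ _) le_rfl) le_rfl).trans ?_
  simp only [norm_mul, Complex.norm_real, Real.norm_eq_abs, Complex.norm_I, mul_one, abs_mul,
    abs_div, abs_of_pos hu0, abs_of_pos hw, abs_of_pos hW, abs_of_pos h3, hn']
  have d1 : |min s u - min t u| / u * (w * u) = w * |min s u - min t u| := by field_simp
  have d3 : |min (max s T) T2 - min (max t T) T2| * (w / W * |p.im|) ≤
      w * |min (max s T) T2 - min (max t T) T2| := by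
    calc _ ≤ |min (max s T) T2 - min (max t T) T2| * (w / W * W) := by gcongr
      _ = _ := by field_simp
  have d4 : |max s T2 - max t T2| / T3 * ‖str c p - c0‖ ≤ w * |max s T2 - max t T2| := by
    calc _ ≤ |max s T2 - max t T2| / T3 * (w * T3) := by gcongr
      _ = _ := by field_simp
  rw [d1, ← c1, ← c2, ← c3]
  linarith

theorem safe {σ : ℝ → ℂ} (h0 : σ 0 = -1) (hσ : ∀ s t, dist (σ s) (σ t) ≤ |s - t|) {Q : ℂ}
    {α t x : ℝ} (ht : 0 ≤ t) (hQ : 0 < ‖Q‖) (hre : 0 ≤ Q.re) (hα : Q.im ^ 2 ≤ α * ‖Q‖ ^ 2)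
    (hα0 : 0 ≤ α) (hα1 : α ≤ 1) :
    x - t + (1 - α / 2 - α ^ 2 / 2) ≤ dist (σ t) (((x / ‖Q‖ : ℝ) : ℂ) * Q) := by
  have e : ((x / ‖Q‖ : ℝ) : ℂ) * Q = (x : ℂ) * cis (Complex.arg Q) := by
    have h3 : ((‖Q‖ : ℝ) : ℂ) ≠ 0 := by exact_mod_cast hQ.ne'
    conv_lhs => rw [← norm_mul_cis_arg Q, norm_mul, norm_cis, mul_one, Complex.norm_real,
      norm_norm]
    rw [Complex.ofReal_div]
    field_simp
  have b1 := proj_UpFanCore (σ t) x (Complex.arg Q)
  have h1 := re_mul_cis_le (σ t + 1) (-Complex.arg Q)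
  have h2 := hσ t 0
  rw [h0, Complex.dist_eq, sub_neg_eq_add, sub_zero, abs_of_nonneg ht] at h2
  rw [add_mul, one_mul, Complex.add_re, cis_re, Real.cos_neg,
    Complex.cos_arg (norm_pos_iff.1 hQ)] at h1
  have h4 : 1 - α / 2 - α ^ 2 / 2 ≤ Q.re / ‖Q‖ := by
    refine le_of_sq_le_sq ?_ (by positivity)
    have h5 : ‖Q‖ ^ 2 = Q.re ^ 2 + Q.im ^ 2 := by
      rw [Complex.sq_norm, Complex.normSq_apply]
      ring
    have h6 : (1 - α / 2 - α ^ 2 / 2) ^ 2 ≤ 1 - α := by
      nlinarith [mul_nonneg (mul_nonneg hα0 hα0) (sub_nonneg.2 hα1),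
        mul_nonneg (mul_nonneg hα0 hα0) (mul_nonneg hα0 (sub_nonneg.2 hα1))]
    refine h6.trans ?_
    rw [div_pow, le_div_iff₀ (by positivity)]
    linarith
  rw [e]
  linarith

theorem up_slab {r r' w T W α : ℝ} (m : ℕ) (hr : r < r') (hr0 : 0 ≤ r') (hr1 : r' ≤ 1)
    (hw : 1 / 2 ≤ w) (hw1 : w ≤ 1) (hW : 1 ≤ W) (hX : 2 * W + 2 ^ (m + 1) * W ≤ w * T)
    (hα0 : 0 ≤ α) (hα1 : α ≤ 1) (hα : W ^ 2 ≤ α * (w * T - (2 ^ (m + 1) * W + W) / 2) ^ 2)
    (hs : r' ≤ 1 - α / 2 - α ^ 2 / 2 - (1 - w) * T) :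
    value r w (-1) ≤ ENNReal.ofReal
      ((4 + 2 * (2 ^ (m + 1) * W + W) / w + ((m + 1 : ℕ) * (20 * W) + 22 * W)) /
        (2 ^ (m + 1) * W * (2 * W))) := by
  have hw0 : 0 < w := by linarith
  have hW0 : 0 < W := by linarith
  set c : ℝ := 2 ^ (m + 1) with hc
  have hc1 : 1 ≤ c := one_le_pow₀ (by norm_num)
  have hL : 0 < c * W := by positivity
  have hM : 0 < w * T := by linarith
  have hT : 0 < T := (mul_pos_iff_of_pos_left hw0).1 hM
  set T2 := T + (c - 1) * W / w with hT2
  have hTT : T ≤ T2 := le_add_of_nonneg_right (by have : 0 ≤ c - 1 := by linarith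
                                                  positivity)
  obtain ⟨ρ, hρ1, hρ2⟩ := exists_rat_btwn (show T2 - 3 * c * W - 1 < T2 - 3 * c * W by linarith)
  have h3 : 0 < T2 - ρ := by linarith
  set c0 : ℂ := ((w * T - W - c * W / 2 : ℝ) : ℂ) with hc0
  have hv := vol_rect (w * T - W - c * W) (w * T - W) W
  rw [← ENNReal.ofReal_mul (by linarith),
    show (w * T - W - (w * T - W - c * W)) * (W - -W) = c * W * (2 * W) by ring] at hv
  have F : ∀ p : ℂ, p.re ∈ Icc (w * T - W - c * W) (w * T - W) → p.im ∈ Icc (-W) W →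
      0 ≤ p.re ∧ 0 ≤ sl (w * T) p ∧ sl (w * T) p ≤ (c * W + W) / 2 ∧
      ‖p + (sl (w * T) p : ℂ)‖ = w * T - sl (w * T) p ∧ 0 < T - sl (w * T) p / w ∧
      ‖str c p - c0‖ ≤ w * (T2 - ρ) := fun p h1 h2 => by
    have a0 : 0 ≤ p.re := by linarith [h1.1]
    have a1 := Complex.norm_le_abs_re_add_abs_im p
    rw [abs_of_nonneg a0] at a1
    obtain ⟨b1, b2, b3⟩ := sl_facts hM a0 (by linarith [h1.2, abs_le.2 h2])
    refine ⟨a0, b1, by linarith [h1.1], b3, ?_, ?_⟩
    · rw [sub_pos, div_lt_iff₀' hw0]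
      linarith
    · have a2 : |(str c p - c0).re| ≤ c * W / 2 := by
        simp only [str, hc0, Complex.sub_re, Complex.ofReal_re]
        exact abs_le.2 ⟨by linarith [h1.1], by linarith [h1.2]⟩
      have a3 : |(str c p - c0).im| ≤ c * W := by
        simp only [str, hc0, Complex.sub_im, Complex.ofReal_im, sub_zero]
        rw [abs_mul, abs_of_pos (by linarith)]
        exact mul_le_mul_of_nonneg_left (abs_le.2 h2) (by linarith)
      have a4 : 1 / 2 * (3 * c * W) ≤ w * (T2 - ρ) :=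
        mul_le_mul hw (by linarith) (by positivity) hw0.le
      linarith [Complex.norm_le_abs_re_add_abs_im (str c p - c0)]
  have h := value_le (r := r) (r' := r') (-1) hr hw0.le
    {p : ℂ | p.re ∈ Icc (w * T - W - c * W) (w * T - W) ∧ p.im ∈ Icc (-W) W}
    ((Complex.measurable_re measurableSet_Icc).inter (Complex.measurable_im measurableSet_Icc))
    (by rw [hv]; exact (ENNReal.ofReal_pos.2 (by positivity)).ne')
    (by rw [hv]; exact ENNReal.ofReal_ne_top) (hp w T W T2 (T2 - ρ) c c0)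
    (fun p hp' => by
      obtain ⟨-, b1, -, b3, b4, b5⟩ := F p hp'.1 hp'.2
      exact hp_lip hw0 hW0 h3 b4 b1 hTT b3 (abs_le.2 hp'.2) b5)
    (fun t => by
      have hs : Measurable (str c) := by
        have : str c = fun p => (p.re : ℂ) + ((c * p.im : ℝ) : ℂ) * Complex.I := by
          ext1 p
          apply Complex.ext <;> simp [str]
        rw [this]
        fun_prop
      unfold hp sl
      fun_prop)
    (ENNReal.ofReal (4 + 2 * (c * W + W) / w) +
      (∑ _k ∈ Finset.range (m + 1), ENNReal.ofReal (20 * W) + ENNReal.ofReal (22 * W)))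
    fun σ h0 hσ => by
      have k1 := tube (S := {t | t ∈ range ((↑) : ℚ → ℝ) ∧ T - (c * W + W) / 2 / w ≤ t ∧ t ≤ T})
        ((countable_range _).mono fun t ht => ht.1) (fun t => σ t - ((w * (T - t) : ℝ) : ℂ))
        (c := 2) hr0 zero_le_two (fun t ht => ht.2) fun s _ t _ hst => by
          have a1 := hσ t s
          rw [abs_of_pos (sub_pos.2 hst), Complex.dist_eq] at a1
          rw [Complex.dist_eq, show σ t - ((w * (T - t) : ℝ) : ℂ) - (σ s - ((w * (T - s) : ℝ) : ℂ)) =
            σ t - σ s + ((w * (t - s) : ℝ) : ℂ) by push_cast; ring]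
          refine (norm_add_le _ _).trans ?_
          rw [Complex.norm_real, Real.norm_of_nonneg (mul_nonneg hw0.le (by linarith))]
          nlinarith
      have k2 := k1.trans (ENNReal.ofReal_le_ofReal (show _ ≤ 4 + 2 * (c * W + W) / w by
        have a2 : Real.pi * r' ^ 2 ≤ 4 * 1 ^ 2 := by gcongr; exact Real.pi_le_four
        have a3 : 2 * r' * 2 * ((c * W + W) / 2 / w) ≤ 2 * 1 * 2 * ((c * W + W) / 2 / w) := by
          gcongr
        have a4 : 2 * 1 * 2 * ((c * W + W) / 2 / w) = 2 * (c * W + W) / w := by ring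
        rw [sub_sub_cancel]
        linarith))
      have k3 := (measure_biUnion_finset_le (μ := volume) (Finset.range (m + 1)) _).trans
        (Finset.sum_le_sum fun k _ => stage σ hσ (T := T) (c := 2 ^ k) hr0 hr1 hw hw1 hW
          (one_le_pow₀ one_le_two))
      have k4 := last σ hσ ρ c0 hr0 hr1 hw0.le hw1 hW hc1 h3 (by linarith)
      refine le_trans (measure_mono ?_) ((measure_union_le _ _).trans (add_le_add k2
        ((measure_union_le _ _).trans (add_le_add k3 k4))))
      rintro p ⟨⟨p1, p2⟩, q, hq0, hq⟩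
      obtain ⟨b0, b1, b2, b3, b4, b5⟩ := F p p1 p2
      have hu : T - sl (w * T) p / w ≤ T := sub_le_self _ (by positivity)
      have b6 : w * (T - sl (w * T) p / w) = w * T - sl (w * T) p := by field_simp
      unfold hp at hq
      rcases le_total (q : ℝ) T with h1 | h1
      · rw [max_eq_right h1, min_eq_left hTT, max_eq_right (h1.trans hTT)] at hq
        simp only [sub_self, mul_zero, zero_mul, zero_div, Complex.ofReal_zero, add_zero] at hq
        rcases le_total (q : ℝ) (T - sl (w * T) p / w) with h2 | h2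
        · exfalso
          rw [min_eq_left h2, max_eq_right h2, min_eq_left hu, sub_self, mul_zero,
            Complex.ofReal_zero, sub_zero, ← mul_div_mul_left _ _ hw0.ne', b6, ← b3] at hq
          have a1 := safe h0 hσ (Q := p + sl (w * T) p) (x := w * q) hq0 (by rw [b3]; linarith)
            (by simp; linarith) (by
              have a2 : p.im ^ 2 ≤ W ^ 2 := sq_le_sq' p2.1 p2.2
              have a3 : α * (w * T - (c * W + W) / 2) ^ 2 ≤ α * (w * T - sl (w * T) p) ^ 2 := by
                gcongr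
                linarith
              rw [b3]
              simp only [Complex.add_im, Complex.ofReal_im, add_zero]
              linarith) hα0 hα1
          linarith [mul_le_mul_of_nonneg_left h1 (sub_nonneg.2 hw1)]
        · left
          rw [min_eq_right h2, max_eq_left h2, min_eq_left h1, div_self b4.ne', mul_sub, b6] at hq
          refine mem_biUnion (x := (q : ℝ)) ⟨⟨q, rfl⟩, le_trans (by gcongr) h2, h1⟩ ?_
          rw [mem_ball, dist_comm, Complex.dist_eq]
          rw [Complex.dist_eq] at hq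
          convert hq using 2
          push_cast
          ring
      right
      rw [min_eq_right (hu.trans h1), max_eq_left (hu.trans h1), min_eq_right h1, div_self b4.ne',
        mul_sub, b6, max_eq_left h1] at hq
      rcases le_total (q : ℝ) T2 with h2 | h2
      · left
        have a1 : 1 + w / W * (q - T) ≤ 1 * 2 ^ (m + 1) := by
          have a2 : w / W * (q - T) ≤ w / W * ((c - 1) * W / w) := by
            gcongr
            linarith
          have a3 : w / W * ((c - 1) * W / w) = c - 1 := by field_simp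
          linarith
        obtain ⟨k, hk, a4, a5⟩ := cover_Fan m (le_add_of_nonneg_right
          (mul_nonneg (by positivity) (sub_nonneg.2 h1))) a1
        rw [one_mul] at a4 a5
        refine mem_biUnion (Finset.mem_coe.2 (Finset.mem_range.2 hk))
          ⟨abs_le.2 p2, q, a4, by rwa [← pow_succ], ?_⟩
        rw [min_eq_left h2, max_eq_right h2] at hq
        convert hq using 2
        apply Complex.ext <;> simp [str]
        ring
      · right
        refine ⟨b5, q, by linarith, ?_⟩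
        rw [min_eq_right h2, max_eq_left h2] at hq
        convert hq using 2
        have a3 : w / W * (T2 - T) = c - 1 := by
          rw [hT2]
          field_simp
          ring
        have a4 : ((q : ℝ) - ρ) / (T2 - ρ) = 1 + (q - T2) / (T2 - ρ) := by
          field_simp
          ring
        have a5 : str c p = p + (((c - 1) * p.im : ℝ) : ℂ) * Complex.I := by
          apply Complex.ext <;> simp [str]
          ring
        rw [a3, a4, Complex.ofReal_add, add_mul, Complex.ofReal_one, one_mul, one_mul, ← add_assoc,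
          add_sub_cancel]
        congr 1
        rw [a5]
        push_cast
        ring
  rw [hv, Finset.sum_const, Finset.card_range, nsmul_eq_mul, ← ENNReal.ofReal_natCast,
    ← ENNReal.ofReal_mul (by positivity), ← ENNReal.ofReal_add (by positivity) (by positivity),
    ← ENNReal.ofReal_add (by positivity) (by positivity),
    ← ENNReal.ofReal_div_of_pos (by positivity)] at h
  exact h

end Pool.Agent.MP_66a317_pr.Drop
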