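import Pool.Agent.Mg.F66a317.G5afe50

open MeasureTheory Metric Set
open scoped NNReal ENNReal

namespace Pool.Agent.MP_66a317_pr.Drop

theorem tube {S : Set ℝ} (hS : S.Countable) (z : ℝ → ℂ) {r c a b : ℝ} (hr : 0 ≤ r) (hc : 0 ≤ c)
    (hab : ∀ t ∈ S, a ≤ t ∧ t ≤ b)
    (hz : ∀ s ∈ S, ∀ t ∈ S, s < t → dist (z t) (z s) ≤ c * (t - s)) :
    volume (⋃ t ∈ S, ball (z t) r) ≤ ENNReal.ofReal (Real.pi * r ^ 2 + 2 * r * c * (b - a)) :=
  chain S hS z (fun _ => r) (fun t => 2 * r * c * (t - a)) r _ (fun _ _ => ⟨hr, le_rfl⟩)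
    (fun t ht => ⟨mul_nonneg (by positivity) (sub_nonneg.2 (hab t ht).1), by
      have := (hab t ht).2
      gcongr⟩)
    fun s hs t ht hst => ⟨le_rfl, by
      linarith [mul_le_mul_of_nonneg_left (hz s hs t ht hst) (show 0 ≤ 2 * r by positivity)]⟩

/-- stretching of the imaginary axis -/
def str (c : ℝ) (p : ℂ) : ℂ := ⟨p.re, c * p.im⟩

theorem vol_str {c : ℝ} (hc : 0 < c) (S : Set ℂ) :
    volume (str c ⁻¹' S) = ENNReal.ofReal c⁻¹ * volume S := by
  let f : ℂ →ₗ[ℝ] ℂ := Matrix.toLin Complex.basisOneI Complex.basisOneI !![1, 0; 0, c]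
  have hd : LinearMap.det f = c := by simp [f, LinearMap.det_toLin, Matrix.det_fin_two]
  have hf : ∀ p, f p = str c p := fun p => by
    apply Complex.ext <;> simp [f, str, Matrix.toLin_apply, Matrix.mulVec, dotProduct]
  have h := Measure.addHaar_preimage_linearMap (volume : Measure ℂ) (f := f) (by rw [hd]; exact hc.ne') S
  rw [hd, abs_of_pos (inv_pos.2 hc)] at h
  rw [← h]
  congr 1
  ext p
  simp [hf]

theorem vol_rect (a b W : ℝ) : volume {p : ℂ | p.re ∈ Icc a b ∧ p.im ∈ Icc (-W) W} =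
    ENNReal.ofReal (b - a) * ENNReal.ofReal (W - -W) := by
  have h := Complex.volume_preserving_equiv_real_prod.measure_preimage
    (s := Icc a b ×ˢ Icc (-W) W) (measurableSet_Icc.prod measurableSet_Icc).nullMeasurableSet
  rw [Measure.volume_eq_prod, Measure.prod_prod, Real.volume_Icc, Real.volume_Icc] at h
  exact h

theorem stage (σ : ℝ → ℂ) (hσ : ∀ s t, dist (σ s) (σ t) ≤ |s - t|) {r w W T c : ℝ} (hr : 0 ≤ r)
    (hr1 : r ≤ 1) (hw : 1 / 2 ≤ w) (hw1 : w ≤ 1) (hW : 1 ≤ W) (hc : 1 ≤ c) :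
    volume {p : ℂ | |p.im| ≤ W ∧ ∃ q : ℚ, c ≤ 1 + w / W * (q - T) ∧ 1 + w / W * (q - T) ≤ c * 2 ∧
      dist (σ q) (str (1 + w / W * (q - T)) p) < r} ≤ ENNReal.ofReal (20 * W) := by
  have hW0 : 0 < W := by linarith
  have hw0 : 0 < w := by linarith
  have hk : 0 < w / W := by positivity
  have hc0 : 0 < c := by linarith
  set lam : ℝ → ℝ := fun t => 1 + w / W * (t - T) with hlam
  have h := tube (S := {t | t ∈ range ((↑) : ℚ → ℝ) ∧ c ≤ lam t ∧ lam t ≤ c * 2 ∧
      |(σ t).im| ≤ lam t * W + r}) ((countable_range _).mono fun t ht => ht.1)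
    (fun t => str (c / lam t) (σ t)) (c := 4) (a := T + (c - 1) / (w / W))
    (b := T + (c * 2 - 1) / (w / W)) hr (by norm_num)
    (fun t ht => ⟨by
      rw [← le_sub_iff_add_le', div_le_iff₀' hk]
      linarith [show c ≤ 1 + w / W * (t - T) from ht.2.1], by
      rw [← sub_le_iff_le_add', le_div_iff₀' hk]
      linarith [show 1 + w / W * (t - T) ≤ c * 2 from ht.2.2.1]⟩)
    fun s hs t ht hst => by
      have a1 := hσ t s
      rw [abs_of_pos (sub_pos.2 hst), Complex.dist_eq] at a1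
      have a2 := (Complex.abs_re_le_norm _).trans a1
      have a3 := (Complex.abs_im_le_norm _).trans a1
      have s1 : 1 ≤ lam s := hc.trans hs.2.1
      have t1 : c ≤ lam t := ht.2.1
      have t0 : 0 < lam t := by linarith
      have s0 : 0 < lam s := by linarith
      have e1 : lam t - lam s = w / W * (t - s) := by simp only [hlam]; ring
      have e2 : (str (c / lam t) (σ t) - str (c / lam s) (σ s)).im =
          c / lam t * ((σ t - σ s).im - (σ s).im / lam s * (w / W * (t - s))) := by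
        rw [← e1]
        simp only [str, Complex.sub_im]
        field_simp
        ring
      have b1 : |(σ s).im / lam s| ≤ 2 * W := by
        rw [abs_div, abs_of_pos s0, div_le_iff₀ s0]
        nlinarith [hs.2.2.2]
      have b2 : |(σ s).im / lam s * (w / W * (t - s))| ≤ 2 * (t - s) := by
        rw [abs_mul, abs_of_pos (mul_pos hk (sub_pos.2 hst))]
        calc _ ≤ 2 * W * (1 / W * (t - s)) := by gcongr
          _ = _ := by field_simp
      have b3 : |(str (c / lam t) (σ t) - str (c / lam s) (σ s)).im| ≤ 1 * (3 * (t - s)) := by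
        rw [e2, abs_mul, abs_of_pos (by positivity)]
        exact mul_le_mul ((div_le_one t0).2 t1) ((abs_sub _ _).trans (by linarith))
          (abs_nonneg _) zero_le_one
      rw [Complex.dist_eq]
      refine (Complex.norm_le_abs_re_add_abs_im _).trans ?_
      have b4 : (str (c / lam t) (σ t) - str (c / lam s) (σ s)).re = (σ t - σ s).re := rfl
      rw [b4]
      linarith
  refine le_trans (measure_mono (t := str c ⁻¹' _) ?_)
    ((vol_str hc0 _).trans_le ((mul_le_mul_right h _).trans ?_))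
  · rintro p ⟨hp, q, h1, h2, h3⟩
    have t0 : 0 < lam q := hc0.trans_le h1
    rw [Complex.dist_eq] at h3
    have a3 := (Complex.abs_im_le_norm _).trans_lt h3
    have a4 : (σ q - str (lam q) p).im = (σ q).im - lam q * p.im := rfl
    refine mem_biUnion (x := (q : ℝ)) ⟨⟨q, rfl⟩, h1, h2, ?_⟩ ?_
    · have a5 := abs_sub_abs_le_abs_sub (σ q).im (lam q * p.im)
      rw [abs_mul, abs_of_pos t0, ← a4] at a5
      linarith [mul_le_mul_of_nonneg_left hp t0.le]
    · rw [mem_ball, dist_comm, Complex.dist_eq]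
      refine lt_of_le_of_lt (le_of_sq_le_sq ?_ (norm_nonneg _)) h3
      have e1 : (str (c / lam q) (σ q) - str c p).im = c / lam q * (σ q - str (lam q) p).im := by
        simp only [str, Complex.sub_im]
        field_simp
      have e2 : (str (c / lam q) (σ q) - str c p).re = (σ q - str (lam q) p).re := rfl
      have e3 : (c / lam q) ^ 2 ≤ 1 := pow_le_one₀ (by positivity) ((div_le_one t0).2 h1)
      rw [Complex.sq_norm, Complex.sq_norm, Complex.normSq_apply, Complex.normSq_apply, e1, e2]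
      nlinarith [mul_le_mul_of_nonneg_right e3 (mul_self_nonneg (σ q - str (lam q) p).im)]
  · rw [← ENNReal.ofReal_mul (by positivity)]
    refine ENNReal.ofReal_le_ofReal ?_
    rw [inv_mul_le_iff₀ hc0]
    have e : T + (c * 2 - 1) / (w / W) - (T + (c - 1) / (w / W)) = c * W / w := by
      field_simp
      ring
    have a1 : c * W / w ≤ c * W * 2 := by
      rw [div_le_iff₀ hw0]
      nlinarith [mul_pos hc0 hW0]
    have a2 : Real.pi * r ^ 2 ≤ 4 * 1 ^ 2 := by gcongr; exact Real.pi_le_four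
    have a3 : 2 * r * 4 * (c * W / w) ≤ 2 * 1 * 4 * (c * W * 2) := by gcongr
    rw [e]
    nlinarith

theorem last (σ : ℝ → ℂ) (hσ : ∀ s t, dist (σ s) (σ t) ≤ |s - t|) {r w W c T3 : ℝ} (ρ : ℚ)
    (c0 : ℂ) (hr : 0 ≤ r) (hr1 : r ≤ 1) (hw : 0 ≤ w) (hw1 : w ≤ 1) (hW : 1 ≤ W) (hc : 1 ≤ c)
    (h3 : 0 < T3) (h4 : T3 ≤ 3 * c * W + 1) :
    volume {p : ℂ | ‖str c p - c0‖ ≤ w * T3 ∧ ∃ q : ℚ, T3 ≤ q - ρ ∧
      dist (σ q) (c0 + ((((q : ℝ) - ρ) / T3 : ℝ) : ℂ) * (str c p - c0)) < r} ≤
      ENNReal.ofReal (22 * W) := by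
  have hc0 : 0 < c := by linarith
  have h := expand_tube (fun t => σ (t + ρ) - c0) (fun s t => by
    rw [dist_sub_right]
    simpa using hσ (s + ρ) (t + ρ)) hr hw h3
  rw [← measure_preimage_add_right volume (-c0)] at h
  refine le_trans (measure_mono (t := str c ⁻¹' _) ?_)
    ((vol_str hc0 _).trans_le ((mul_le_mul_right h _).trans ?_))
  · rintro p ⟨hp, q, h1, h2⟩
    rw [mem_preimage, mem_preimage, ← sub_eq_add_neg]
    refine ⟨hp, q - ρ, by push_cast; exact h1, ?_⟩
    push_cast at h2 ⊢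
    rw [sub_add_cancel, Complex.dist_eq, sub_sub, ← Complex.dist_eq]
    exact h2
  · rw [← ENNReal.ofReal_mul (by positivity)]
    refine ENNReal.ofReal_le_ofReal ?_
    rw [inv_mul_le_iff₀ hc0]
    have a2 : Real.pi * r ^ 2 ≤ 4 * 1 ^ 2 := by gcongr; exact Real.pi_le_four
    have a3 : 2 * r * (T3 * (1 + w) + r) ≤ 2 * 1 * ((3 * c * W + 1) * (1 + 1) + 1) := by gcongr
    nlinarith [mul_le_mul hc hW zero_le_one hc0.le]

end Pool.Agent.MP_66a317_pr.Drop
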